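import Pool.Agent.MP_343cc6_co.Core

-- part MP_343cc6_co.Fam0
section

set_option autoImplicit false

namespace Pool.Agent.MP_343cc6_co

open Pool.Agent.Lib.APCheck

def fam1 : List Seg := [
  ⟨⟨6, 13⟩, 1, ⟨15, 25⟩, -2, ⟨3, 4⟩⟩,
  ⟨⟨15, 32⟩, 1, ⟨36, 71⟩, -2, ⟨3, 4⟩⟩,
  ⟨⟨18, 38⟩, 1, ⟨6, 9⟩, -2, ⟨3, 4⟩⟩,
  ⟨⟨27, 55⟩, 1, ⟨6, 10⟩, -2, ⟨3, 5⟩⟩,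
  ⟨⟨36, 75⟩, 1, ⟨36, 70⟩, -2, ⟨3, 4⟩⟩,
  ⟨⟨39, 79⟩, 1, ⟨27, 51⟩, -2, ⟨3, 5⟩⟩,
  ⟨⟨42, 87⟩, 1, ⟨51, 104⟩, 2, ⟨3, 4⟩⟩,
  ⟨⟨45, 91⟩, 1, ⟨15, 28⟩, -2, ⟨3, 5⟩⟩,
  ⟨⟨48, 99⟩, 1, ⟨27, 52⟩, -2, ⟨3, 4⟩⟩,
  ⟨⟨57, 117⟩, 1, ⟨57, 113⟩, -2, ⟨3, 5⟩⟩,
  ⟨⟨0, 1⟩, 0, ⟨48, 96⟩, 0, ⟨0, 1⟩⟩,
  ⟨⟨6, 11⟩, 0, ⟨36, 72⟩, 0, ⟨0, 1⟩⟩,
  ⟨⟨6, 12⟩, 0, ⟨18, 37⟩, 0, ⟨0, 1⟩⟩,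
  ⟨⟨9, 17⟩, 0, ⟨57, 115⟩, 0, ⟨0, 1⟩⟩,
  ⟨⟨9, 18⟩, 0, ⟨30, 62⟩, 0, ⟨0, 1⟩⟩,
  ⟨⟨15, 27⟩, 0, ⟨27, 54⟩, 0, ⟨0, 1⟩⟩,
  ⟨⟨15, 29⟩, 0, ⟨15, 30⟩, 0, ⟨0, 1⟩⟩,
  ⟨⟨15, 31⟩, 0, ⟨27, 53⟩, 0, ⟨0, 1⟩⟩,
  ⟨⟨18, 36⟩, 0, ⟨48, 98⟩, 0, ⟨0, 1⟩⟩,
  ⟨⟨21, 42⟩, 0, ⟨21, 44⟩, 0, ⟨0, 1⟩⟩,
  ⟨⟨30, 60⟩, 0, ⟨51, 103⟩, 0, ⟨0, 1⟩⟩,
  ⟨⟨30, 61⟩, 0, ⟨42, 85⟩, 0, ⟨0, 1⟩⟩,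
  ⟨⟨30, 63⟩, 0, ⟨42, 84⟩, 0, ⟨0, 1⟩⟩,
  ⟨⟨36, 73⟩, 0, ⟨57, 114⟩, 0, ⟨0, 1⟩⟩,
  ⟨⟨36, 74⟩, 0, ⟨57, 116⟩, 0, ⟨0, 1⟩⟩,
  ⟨⟨48, 97⟩, 0, ⟨57, 112⟩, 0, ⟨0, 1⟩⟩]

theorem chk1 : famB ⟨60, 121⟩ ⟨42, 86⟩ fam1 = true := by decide +kernel

theorem perfect1 (g : ℕ) (h1 : g % 60 = 1) (h2 : 121 ≤ g) : Perfect g :=
  famB_sound chk1 (t := ((g - 121) / 60 : ℕ)) (by positivity) (by simp only [Lin.ev]; omega)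

def fam3 : List Seg := [
  ⟨⟨9, 29⟩, 1, ⟨9, 22⟩, -2, ⟨3, 7⟩⟩,
  ⟨⟨12, 38⟩, 1, ⟨30, 96⟩, 2, ⟨3, 7⟩⟩,
  ⟨⟨15, 46⟩, 1, ⟨24, 70⟩, -2, ⟨3, 8⟩⟩,
  ⟨⟨24, 75⟩, 1, ⟨39, 124⟩, 2, ⟨3, 6⟩⟩,
  ⟨⟨27, 84⟩, 1, ⟨57, 176⟩, 2, ⟨3, 7⟩⟩,
  ⟨⟨36, 112⟩, 1, ⟨45, 135⟩, -2, ⟨3, 7⟩⟩,
  ⟨⟨45, 138⟩, 1, ⟨18, 59⟩, 2, ⟨3, 7⟩⟩,
  ⟨⟨48, 148⟩, 1, ⟨57, 179⟩, 2, ⟨3, 7⟩⟩,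
  ⟨⟨51, 158⟩, 1, ⟨3, 13⟩, 2, ⟨3, 6⟩⟩,
  ⟨⟨54, 167⟩, 1, ⟨30, 95⟩, 2, ⟨3, 8⟩⟩,
  ⟨⟨3, 7⟩, 0, ⟨3, 11⟩, 0, ⟨0, 1⟩⟩,
  ⟨⟨3, 9⟩, 0, ⟨18, 57⟩, 0, ⟨0, 1⟩⟩,
  ⟨⟨9, 24⟩, 0, ⟨18, 54⟩, 0, ⟨0, 1⟩⟩,
  ⟨⟨9, 25⟩, 0, ⟨9, 27⟩, 0, ⟨0, 1⟩⟩,
  ⟨⟨9, 26⟩, 0, ⟨24, 72⟩, 0, ⟨0, 1⟩⟩,
  ⟨⟨9, 28⟩, 0, ⟨51, 156⟩, 0, ⟨0, 1⟩⟩,
  ⟨⟨12, 36⟩, 0, ⟨30, 93⟩, 0, ⟨0, 1⟩⟩,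
  ⟨⟨12, 37⟩, 0, ⟨45, 136⟩, 0, ⟨0, 1⟩⟩,
  ⟨⟨15, 45⟩, 0, ⟨48, 146⟩, 0, ⟨0, 1⟩⟩,
  ⟨⟨18, 55⟩, 0, ⟨51, 155⟩, 0, ⟨0, 1⟩⟩,
  ⟨⟨24, 73⟩, 0, ⟨57, 175⟩, 0, ⟨0, 1⟩⟩,
  ⟨⟨24, 74⟩, 0, ⟨57, 177⟩, 0, ⟨0, 1⟩⟩,
  ⟨⟨27, 81⟩, 0, ⟨27, 82⟩, 0, ⟨0, 1⟩⟩,
  ⟨⟨27, 83⟩, 0, ⟨36, 111⟩, 0, ⟨0, 1⟩⟩,
  ⟨⟨30, 91⟩, 0, ⟨48, 147⟩, 0, ⟨0, 1⟩⟩,
  ⟨⟨30, 92⟩, 0, ⟨39, 121⟩, 0, ⟨0, 1⟩⟩,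
  ⟨⟨36, 110⟩, 0, ⟨51, 157⟩, 0, ⟨0, 1⟩⟩,
  ⟨⟨39, 119⟩, 0, ⟨48, 145⟩, 0, ⟨0, 1⟩⟩,
  ⟨⟨39, 120⟩, 0, ⟨54, 165⟩, 0, ⟨0, 1⟩⟩,
  ⟨⟨39, 122⟩, 0, ⟨54, 166⟩, 0, ⟨0, 1⟩⟩,
  ⟨⟨45, 137⟩, 0, ⟨54, 164⟩, 0, ⟨0, 1⟩⟩]

theorem chk3 : famB ⟨60, 183⟩ ⟨30, 94⟩ fam3 = true := by decide +kernel

theorem perfect3 (g : ℕ) (h1 : g % 60 = 3) (h2 : 183 ≤ g) : Perfect g :=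
  famB_sound chk3 (t := ((g - 183) / 60 : ℕ)) (by positivity) (by simp only [Lin.ev]; omega)

def fam5 : List Seg := [
  ⟨⟨0, 2⟩, 1, ⟨60, 182⟩, -2, ⟨3, 7⟩⟩,
  ⟨⟨3, 11⟩, 1, ⟨39, 124⟩, 2, ⟨3, 8⟩⟩,
  ⟨⟨6, 20⟩, 1, ⟨15, 42⟩, -2, ⟨3, 7⟩⟩,
  ⟨⟨15, 48⟩, 1, ⟨30, 95⟩, 2, ⟨3, 7⟩⟩,
  ⟨⟨18, 58⟩, 1, ⟨45, 145⟩, 2, ⟨3, 6⟩⟩,
  ⟨⟨21, 67⟩, 1, ⟨45, 140⟩, 2, ⟨3, 8⟩⟩,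
  ⟨⟨24, 76⟩, 1, ⟨9, 33⟩, 2, ⟨3, 6⟩⟩,
  ⟨⟨27, 85⟩, 1, ⟨36, 106⟩, -2, ⟨3, 7⟩⟩,
  ⟨⟨36, 112⟩, 1, ⟨54, 169⟩, 2, ⟨3, 7⟩⟩,
  ⟨⟨51, 156⟩, 1, ⟨39, 121⟩, 2, ⟨3, 10⟩⟩,
  ⟨⟨0, 0⟩, 0, ⟨18, 55⟩, 0, ⟨0, 1⟩⟩,
  ⟨⟨0, 1⟩, 0, ⟨27, 82⟩, 0, ⟨0, 1⟩⟩,
  ⟨⟨3, 9⟩, 0, ⟨36, 108⟩, 0, ⟨0, 1⟩⟩,
  ⟨⟨3, 10⟩, 0, ⟨21, 64⟩, 0, ⟨0, 1⟩⟩,
  ⟨⟨6, 19⟩, 0, ⟨24, 75⟩, 0, ⟨0, 1⟩⟩,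
  ⟨⟨9, 27⟩, 0, ⟨36, 109⟩, 0, ⟨0, 1⟩⟩,
  ⟨⟨9, 28⟩, 0, ⟨21, 65⟩, 0, ⟨0, 1⟩⟩,
  ⟨⟨9, 29⟩, 0, ⟨30, 93⟩, 0, ⟨0, 1⟩⟩,
  ⟨⟨9, 31⟩, 0, ⟨18, 56⟩, 0, ⟨0, 1⟩⟩,
  ⟨⟨15, 44⟩, 0, ⟨15, 46⟩, 0, ⟨0, 1⟩⟩,
  ⟨⟨15, 45⟩, 0, ⟨60, 184⟩, 0, ⟨0, 1⟩⟩,
  ⟨⟨15, 47⟩, 0, ⟨30, 92⟩, 0, ⟨0, 1⟩⟩,
  ⟨⟨18, 57⟩, 0, ⟨45, 141⟩, 0, ⟨0, 1⟩⟩,
  ⟨⟨21, 66⟩, 0, ⟨54, 168⟩, 0, ⟨0, 1⟩⟩,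
  ⟨⟨27, 83⟩, 0, ⟨60, 183⟩, 0, ⟨0, 1⟩⟩,
  ⟨⟨27, 84⟩, 0, ⟨39, 120⟩, 0, ⟨0, 1⟩⟩,
  ⟨⟨36, 110⟩, 0, ⟨36, 111⟩, 0, ⟨0, 1⟩⟩,
  ⟨⟨39, 122⟩, 0, ⟨54, 166⟩, 0, ⟨0, 1⟩⟩,
  ⟨⟨45, 143⟩, 0, ⟨54, 167⟩, 0, ⟨0, 1⟩⟩]

theorem chk5 : famB ⟨60, 185⟩ ⟨39, 119⟩ fam5 = true := by decide +kernel

theorem perfect5 (g : ℕ) (h1 : g % 60 = 5) (h2 : 185 ≤ g) : Perfect g :=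
  famB_sound chk5 (t := ((g - 185) / 60 : ℕ)) (by positivity) (by simp only [Lin.ev]; omega)

def fam7 : List Seg := [
  ⟨⟨0, 2⟩, 1, ⟨21, 48⟩, 2, ⟨3, 3⟩⟩,
  ⟨⟨3, 7⟩, 1, ⟨15, 36⟩, 2, ⟨3, 5⟩⟩,
  ⟨⟨6, 15⟩, 1, ⟨33, 75⟩, 2, ⟨3, 3⟩⟩,
  ⟨⟨27, 59⟩, 1, ⟨27, 51⟩, -2, ⟨3, 4⟩⟩,
  ⟨⟨30, 66⟩, 1, ⟨9, 22⟩, 2, ⟨3, 3⟩⟩,
  ⟨⟨39, 84⟩, 1, ⟨39, 78⟩, -2, ⟨3, 4⟩⟩,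
  ⟨⟨42, 91⟩, 1, ⟨51, 107⟩, -2, ⟨3, 3⟩⟩,
  ⟨⟨51, 109⟩, 1, ⟨15, 37⟩, 2, ⟨3, 4⟩⟩,
  ⟨⟨54, 116⟩, 1, ⟨9, 25⟩, 2, ⟨3, 4⟩⟩,
  ⟨⟨57, 122⟩, 1, ⟨45, 100⟩, 2, ⟨3, 4⟩⟩,
  ⟨⟨0, 0⟩, 0, ⟨39, 82⟩, 0, ⟨0, 1⟩⟩,
  ⟨⟨0, 1⟩, 0, ⟨60, 126⟩, 0, ⟨0, 1⟩⟩,
  ⟨⟨3, 5⟩, 0, ⟨51, 108⟩, 0, ⟨0, 1⟩⟩,
  ⟨⟨6, 12⟩, 0, ⟨33, 71⟩, 0, ⟨0, 1⟩⟩,
  ⟨⟨6, 13⟩, 0, ⟨30, 64⟩, 0, ⟨0, 1⟩⟩,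
  ⟨⟨6, 14⟩, 0, ⟨42, 89⟩, 0, ⟨0, 1⟩⟩,
  ⟨⟨9, 18⟩, 0, ⟨27, 58⟩, 0, ⟨0, 1⟩⟩,
  ⟨⟨9, 19⟩, 0, ⟨33, 73⟩, 0, ⟨0, 1⟩⟩,
  ⟨⟨9, 20⟩, 0, ⟨54, 113⟩, 0, ⟨0, 1⟩⟩,
  ⟨⟨9, 21⟩, 0, ⟨45, 98⟩, 0, ⟨0, 1⟩⟩,
  ⟨⟨9, 23⟩, 0, ⟨45, 101⟩, 0, ⟨0, 1⟩⟩,
  ⟨⟨15, 28⟩, 0, ⟨15, 35⟩, 0, ⟨0, 1⟩⟩,
  ⟨⟨15, 30⟩, 0, ⟨15, 34⟩, 0, ⟨0, 1⟩⟩,
  ⟨⟨15, 32⟩, 0, ⟨45, 96⟩, 0, ⟨0, 1⟩⟩,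
  ⟨⟨15, 33⟩, 0, ⟨27, 56⟩, 0, ⟨0, 1⟩⟩,
  ⟨⟨21, 46⟩, 0, ⟨57, 120⟩, 0, ⟨0, 1⟩⟩,
  ⟨⟨27, 53⟩, 0, ⟨39, 81⟩, 0, ⟨0, 1⟩⟩,
  ⟨⟨27, 54⟩, 0, ⟨27, 57⟩, 0, ⟨0, 1⟩⟩,
  ⟨⟨27, 55⟩, 0, ⟨42, 90⟩, 0, ⟨0, 1⟩⟩,
  ⟨⟨30, 63⟩, 0, ⟨42, 88⟩, 0, ⟨0, 1⟩⟩,
  ⟨⟨30, 65⟩, 0, ⟨39, 83⟩, 0, ⟨0, 1⟩⟩,
  ⟨⟨33, 69⟩, 0, ⟨45, 95⟩, 0, ⟨0, 1⟩⟩,
  ⟨⟨33, 70⟩, 0, ⟨45, 97⟩, 0, ⟨0, 1⟩⟩,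
  ⟨⟨39, 80⟩, 0, ⟨57, 121⟩, 0, ⟨0, 1⟩⟩,
  ⟨⟨45, 94⟩, 0, ⟨45, 99⟩, 0, ⟨0, 1⟩⟩,
  ⟨⟨54, 114⟩, 0, ⟨54, 115⟩, 0, ⟨0, 1⟩⟩]

theorem chk7 : famB ⟨60, 127⟩ ⟨3, 6⟩ fam7 = true := by decide +kernel

theorem perfect7 (g : ℕ) (h1 : g % 60 = 7) (h2 : 127 ≤ g) : Perfect g :=
  famB_sound chk7 (t := ((g - 127) / 60 : ℕ)) (by positivity) (by simp only [Lin.ev]; omega)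

def fam9 : List Seg := [
  ⟨⟨0, 0⟩, 1, ⟨9, 25⟩, -2, ⟨3, 8⟩⟩,
  ⟨⟨9, 30⟩, 1, ⟨18, 59⟩, 2, ⟨3, 7⟩⟩,
  ⟨⟨24, 78⟩, 1, ⟨24, 72⟩, -2, ⟨3, 7⟩⟩,
  ⟨⟨27, 87⟩, 1, ⟨3, 12⟩, 2, ⟨3, 7⟩⟩,
  ⟨⟨30, 97⟩, 1, ⟨45, 143⟩, 2, ⟨3, 7⟩⟩,
  ⟨⟨33, 106⟩, 1, ⟨45, 144⟩, 2, ⟨3, 7⟩⟩,
  ⟨⟨36, 115⟩, 1, ⟨54, 174⟩, 2, ⟨3, 7⟩⟩,
  ⟨⟨39, 125⟩, 1, ⟨12, 42⟩, 2, ⟨3, 6⟩⟩,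
  ⟨⟨42, 134⟩, 1, ⟨12, 43⟩, 2, ⟨3, 7⟩⟩,
  ⟨⟨51, 162⟩, 1, ⟨60, 185⟩, -2, ⟨3, 7⟩⟩,
  ⟨⟨3, 9⟩, 0, ⟨12, 37⟩, 0, ⟨0, 1⟩⟩,
  ⟨⟨3, 10⟩, 0, ⟨24, 76⟩, 0, ⟨0, 1⟩⟩,
  ⟨⟨9, 26⟩, 0, ⟨9, 27⟩, 0, ⟨0, 1⟩⟩,
  ⟨⟨9, 28⟩, 0, ⟨45, 141⟩, 0, ⟨0, 1⟩⟩,
  ⟨⟨9, 29⟩, 0, ⟨36, 113⟩, 0, ⟨0, 1⟩⟩,
  ⟨⟨12, 38⟩, 0, ⟨30, 94⟩, 0, ⟨0, 1⟩⟩,
  ⟨⟨12, 39⟩, 0, ⟨42, 132⟩, 0, ⟨0, 1⟩⟩,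
  ⟨⟨12, 40⟩, 0, ⟨30, 95⟩, 0, ⟨0, 1⟩⟩,
  ⟨⟨12, 41⟩, 0, ⟨27, 86⟩, 0, ⟨0, 1⟩⟩,
  ⟨⟨18, 54⟩, 0, ⟨18, 56⟩, 0, ⟨0, 1⟩⟩,
  ⟨⟨18, 57⟩, 0, ⟨39, 124⟩, 0, ⟨0, 1⟩⟩,
  ⟨⟨18, 58⟩, 0, ⟨54, 170⟩, 0, ⟨0, 1⟩⟩,
  ⟨⟨24, 73⟩, 0, ⟨42, 131⟩, 0, ⟨0, 1⟩⟩,
  ⟨⟨24, 74⟩, 0, ⟨54, 171⟩, 0, ⟨0, 1⟩⟩,
  ⟨⟨24, 75⟩, 0, ⟨54, 169⟩, 0, ⟨0, 1⟩⟩,
  ⟨⟨24, 77⟩, 0, ⟨36, 114⟩, 0, ⟨0, 1⟩⟩,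
  ⟨⟨27, 85⟩, 0, ⟨45, 142⟩, 0, ⟨0, 1⟩⟩,
  ⟨⟨30, 96⟩, 0, ⟨39, 122⟩, 0, ⟨0, 1⟩⟩,
  ⟨⟨33, 104⟩, 0, ⟨54, 172⟩, 0, ⟨0, 1⟩⟩,
  ⟨⟨33, 105⟩, 0, ⟨51, 158⟩, 0, ⟨0, 1⟩⟩,
  ⟨⟨39, 123⟩, 0, ⟨51, 159⟩, 0, ⟨0, 1⟩⟩,
  ⟨⟨42, 133⟩, 0, ⟨60, 187⟩, 0, ⟨0, 1⟩⟩,
  ⟨⟨51, 157⟩, 0, ⟨51, 160⟩, 0, ⟨0, 1⟩⟩,
  ⟨⟨51, 161⟩, 0, ⟨60, 188⟩, 0, ⟨0, 1⟩⟩]

theorem chk9 : famB ⟨60, 189⟩ ⟨3, 8⟩ fam9 = true := by decide +kernel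

theorem perfect9 (g : ℕ) (h1 : g % 60 = 9) (h2 : 189 ≤ g) : Perfect g :=
  famB_sound chk9 (t := ((g - 189) / 60 : ℕ)) (by positivity) (by simp only [Lin.ev]; omega)

def fam11 : List Seg := [
  ⟨⟨0, 1⟩, 1, ⟨24, 51⟩, -2, ⟨3, 6⟩⟩,
  ⟨⟨3, 9⟩, 1, ⟨27, 64⟩, 2, ⟨3, 3⟩⟩,
  ⟨⟨6, 14⟩, 1, ⟨15, 28⟩, -2, ⟨3, 5⟩⟩,
  ⟨⟨15, 35⟩, 1, ⟨39, 83⟩, -2, ⟨3, 5⟩⟩,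
  ⟨⟨24, 53⟩, 1, ⟨33, 71⟩, -2, ⟨3, 6⟩⟩,
  ⟨⟨39, 87⟩, 1, ⟨39, 80⟩, -2, ⟨3, 4⟩⟩,
  ⟨⟨48, 106⟩, 1, ⟨18, 42⟩, 2, ⟨3, 4⟩⟩,
  ⟨⟨51, 113⟩, 1, ⟨15, 31⟩, -2, ⟨3, 5⟩⟩,
  ⟨⟨54, 120⟩, 1, ⟨42, 95⟩, 2, ⟨3, 3⟩⟩,
  ⟨⟨57, 126⟩, 1, ⟨42, 94⟩, 2, ⟨3, 4⟩⟩,
  ⟨⟨3, 7⟩, 0, ⟨3, 8⟩, 0, ⟨0, 1⟩⟩,
  ⟨⟨6, 12⟩, 0, ⟨57, 124⟩, 0, ⟨0, 1⟩⟩,
  ⟨⟨6, 13⟩, 0, ⟨33, 72⟩, 0, ⟨0, 1⟩⟩,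
  ⟨⟨9, 19⟩, 0, ⟨42, 92⟩, 0, ⟨0, 1⟩⟩,
  ⟨⟨9, 21⟩, 0, ⟨33, 73⟩, 0, ⟨0, 1⟩⟩,
  ⟨⟨15, 30⟩, 0, ⟨24, 50⟩, 0, ⟨0, 1⟩⟩,
  ⟨⟨15, 32⟩, 0, ⟨27, 59⟩, 0, ⟨0, 1⟩⟩,
  ⟨⟨15, 33⟩, 0, ⟨42, 93⟩, 0, ⟨0, 1⟩⟩,
  ⟨⟨15, 34⟩, 0, ⟨51, 111⟩, 0, ⟨0, 1⟩⟩,
  ⟨⟨18, 40⟩, 0, ⟨27, 62⟩, 0, ⟨0, 1⟩⟩,
  ⟨⟨24, 52⟩, 0, ⟨48, 103⟩, 0, ⟨0, 1⟩⟩,
  ⟨⟨27, 60⟩, 0, ⟨57, 125⟩, 0, ⟨0, 1⟩⟩,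
  ⟨⟨33, 70⟩, 0, ⟨57, 123⟩, 0, ⟨0, 1⟩⟩,
  ⟨⟨39, 82⟩, 0, ⟨51, 110⟩, 0, ⟨0, 1⟩⟩,
  ⟨⟨39, 84⟩, 0, ⟨54, 118⟩, 0, ⟨0, 1⟩⟩,
  ⟨⟨39, 85⟩, 0, ⟨48, 102⟩, 0, ⟨0, 1⟩⟩,
  ⟨⟨39, 86⟩, 0, ⟨54, 119⟩, 0, ⟨0, 1⟩⟩,
  ⟨⟨42, 91⟩, 0, ⟨51, 112⟩, 0, ⟨0, 1⟩⟩,
  ⟨⟨48, 101⟩, 0, ⟨48, 105⟩, 0, ⟨0, 1⟩⟩,
  ⟨⟨48, 104⟩, 0, ⟨60, 130⟩, 0, ⟨0, 1⟩⟩]

theorem chk11 : famB ⟨60, 131⟩ ⟨0, 0⟩ fam11 = true := by decide +kernel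

theorem perfect11 (g : ℕ) (h1 : g % 60 = 11) (h2 : 131 ≤ g) : Perfect g :=
  famB_sound chk11 (t := ((g - 131) / 60 : ℕ)) (by positivity) (by simp only [Lin.ev]; omega)

def fam13 : List Seg := [
  ⟨⟨0, 2⟩, 1, ⟨39, 91⟩, 2, ⟨3, 4⟩⟩,
  ⟨⟨3, 9⟩, 1, ⟨48, 107⟩, 2, ⟨3, 3⟩⟩,
  ⟨⟨6, 15⟩, 1, ⟨48, 108⟩, 2, ⟨3, 4⟩⟩,
  ⟨⟨9, 22⟩, 1, ⟨30, 69⟩, 2, ⟨3, 4⟩⟩,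
  ⟨⟨12, 29⟩, 1, ⟨21, 46⟩, -2, ⟨3, 4⟩⟩,
  ⟨⟨27, 62⟩, 1, ⟨15, 39⟩, 2, ⟨3, 5⟩⟩,
  ⟨⟨36, 82⟩, 1, ⟨36, 76⟩, -2, ⟨3, 3⟩⟩,
  ⟨⟨45, 102⟩, 1, ⟨45, 98⟩, -2, ⟨3, 3⟩⟩,
  ⟨⟨54, 122⟩, 1, ⟨21, 52⟩, 2, ⟨3, 3⟩⟩,
  ⟨⟨57, 126⟩, 1, ⟨21, 49⟩, 2, ⟨3, 6⟩⟩,
  ⟨⟨0, 0⟩, 0, ⟨36, 79⟩, 0, ⟨0, 1⟩⟩,
  ⟨⟨0, 1⟩, 0, ⟨48, 105⟩, 0, ⟨0, 1⟩⟩,
  ⟨⟨3, 6⟩, 0, ⟨15, 37⟩, 0, ⟨0, 1⟩⟩,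
  ⟨⟨3, 7⟩, 0, ⟨36, 78⟩, 0, ⟨0, 1⟩⟩,
  ⟨⟨3, 8⟩, 0, ⟨12, 26⟩, 0, ⟨0, 1⟩⟩,
  ⟨⟨6, 12⟩, 0, ⟨21, 48⟩, 0, ⟨0, 1⟩⟩,
  ⟨⟨6, 13⟩, 0, ⟨54, 118⟩, 0, ⟨0, 1⟩⟩,
  ⟨⟨9, 19⟩, 0, ⟨57, 125⟩, 0, ⟨0, 1⟩⟩,
  ⟨⟨9, 20⟩, 0, ⟨21, 50⟩, 0, ⟨0, 1⟩⟩,
  ⟨⟨9, 21⟩, 0, ⟨39, 88⟩, 0, ⟨0, 1⟩⟩,
  ⟨⟨12, 27⟩, 0, ⟨12, 28⟩, 0, ⟨0, 1⟩⟩,
  ⟨⟨15, 33⟩, 0, ⟨54, 120⟩, 0, ⟨0, 1⟩⟩,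
  ⟨⟨15, 34⟩, 0, ⟨39, 86⟩, 0, ⟨0, 1⟩⟩,
  ⟨⟨15, 35⟩, 0, ⟨27, 60⟩, 0, ⟨0, 1⟩⟩,
  ⟨⟨15, 36⟩, 0, ⟨36, 81⟩, 0, ⟨0, 1⟩⟩,
  ⟨⟨15, 38⟩, 0, ⟨39, 89⟩, 0, ⟨0, 1⟩⟩,
  ⟨⟨27, 58⟩, 0, ⟨39, 90⟩, 0, ⟨0, 1⟩⟩,
  ⟨⟨27, 61⟩, 0, ⟨39, 85⟩, 0, ⟨0, 1⟩⟩,
  ⟨⟨30, 67⟩, 0, ⟨30, 70⟩, 0, ⟨0, 1⟩⟩,
  ⟨⟨30, 68⟩, 0, ⟨54, 121⟩, 0, ⟨0, 1⟩⟩,
  ⟨⟨36, 77⟩, 0, ⟨60, 132⟩, 0, ⟨0, 1⟩⟩,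
  ⟨⟨36, 80⟩, 0, ⟨48, 106⟩, 0, ⟨0, 1⟩⟩,
  ⟨⟨39, 87⟩, 0, ⟨39, 92⟩, 0, ⟨0, 1⟩⟩,
  ⟨⟨45, 99⟩, 0, ⟨54, 115⟩, 0, ⟨0, 1⟩⟩,
  ⟨⟨45, 100⟩, 0, ⟨54, 113⟩, 0, ⟨0, 1⟩⟩,
  ⟨⟨45, 101⟩, 0, ⟨54, 116⟩, 0, ⟨0, 1⟩⟩,
  ⟨⟨54, 117⟩, 0, ⟨54, 119⟩, 0, ⟨0, 1⟩⟩]

theorem chk13 : famB ⟨60, 133⟩ ⟨6, 14⟩ fam13 = true := by decide +kernel

theorem perfect13 (g : ℕ) (h1 : g % 60 = 13) (h2 : 133 ≤ g) : Perfect g :=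
  famB_sound chk13 (t := ((g - 133) / 60 : ℕ)) (by positivity) (by simp only [Lin.ev]; omega)

def fam15 : List Seg := [
  ⟨⟨6, 14⟩, 1, ⟨36, 78⟩, -2, ⟨3, 5⟩⟩,
  ⟨⟨15, 35⟩, 1, ⟨15, 32⟩, -2, ⟨3, 5⟩⟩,
  ⟨⟨18, 41⟩, 1, ⟨27, 58⟩, -2, ⟨3, 5⟩⟩,
  ⟨⟨27, 63⟩, 1, ⟨57, 126⟩, -2, ⟨3, 4⟩⟩,
  ⟨⟨36, 83⟩, 1, ⟨15, 33⟩, -2, ⟨3, 5⟩⟩,
  ⟨⟨39, 89⟩, 1, ⟨57, 129⟩, -2, ⟨3, 7⟩⟩,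
  ⟨⟨42, 96⟩, 1, ⟨21, 49⟩, 2, ⟨3, 5⟩⟩,
  ⟨⟨45, 102⟩, 1, ⟨36, 81⟩, -2, ⟨3, 6⟩⟩,
  ⟨⟨48, 110⟩, 1, ⟨6, 13⟩, -2, ⟨3, 6⟩⟩,
  ⟨⟨57, 130⟩, 1, ⟨6, 8⟩, -2, ⟨3, 4⟩⟩,
  ⟨⟨0, 0⟩, 0, ⟨30, 69⟩, 0, ⟨0, 1⟩⟩,
  ⟨⟨0, 1⟩, 0, ⟨9, 19⟩, 0, ⟨0, 1⟩⟩,
  ⟨⟨6, 10⟩, 0, ⟨27, 61⟩, 0, ⟨0, 1⟩⟩,
  ⟨⟨6, 12⟩, 0, ⟨36, 82⟩, 0, ⟨0, 1⟩⟩,
  ⟨⟨9, 20⟩, 0, ⟨9, 22⟩, 0, ⟨0, 1⟩⟩,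
  ⟨⟨9, 21⟩, 0, ⟨18, 40⟩, 0, ⟨0, 1⟩⟩,
  ⟨⟨9, 23⟩, 0, ⟨27, 62⟩, 0, ⟨0, 1⟩⟩,
  ⟨⟨21, 46⟩, 0, ⟨21, 47⟩, 0, ⟨0, 1⟩⟩,
  ⟨⟨21, 48⟩, 0, ⟨51, 116⟩, 0, ⟨0, 1⟩⟩,
  ⟨⟨27, 59⟩, 0, ⟨48, 108⟩, 0, ⟨0, 1⟩⟩,
  ⟨⟨27, 60⟩, 0, ⟨45, 101⟩, 0, ⟨0, 1⟩⟩,
  ⟨⟨30, 67⟩, 0, ⟨48, 109⟩, 0, ⟨0, 1⟩⟩,
  ⟨⟨30, 68⟩, 0, ⟨39, 88⟩, 0, ⟨0, 1⟩⟩,
  ⟨⟨36, 80⟩, 0, ⟨57, 128⟩, 0, ⟨0, 1⟩⟩,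
  ⟨⟨51, 118⟩, 0, ⟨60, 134⟩, 0, ⟨0, 1⟩⟩]

theorem chk15 : famB ⟨60, 135⟩ ⟨15, 34⟩ fam15 = true := by decide +kernel

theorem perfect15 (g : ℕ) (h1 : g % 60 = 15) (h2 : 135 ≤ g) : Perfect g :=
  famB_sound chk15 (t := ((g - 135) / 60 : ℕ)) (by positivity) (by simp only [Lin.ev]; omega)

def fam17 : List Seg := [
  ⟨⟨0, 2⟩, 1, ⟨9, 19⟩, -2, ⟨3, 5⟩⟩,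
  ⟨⟨9, 23⟩, 1, ⟨30, 68⟩, -2, ⟨3, 5⟩⟩,
  ⟨⟨12, 29⟩, 1, ⟨60, 134⟩, -2, ⟨3, 5⟩⟩,
  ⟨⟨15, 35⟩, 1, ⟨36, 78⟩, -2, ⟨3, 5⟩⟩,
  ⟨⟨18, 43⟩, 1, ⟨54, 127⟩, 2, ⟨3, 5⟩⟩,
  ⟨⟨21, 50⟩, 1, ⟨30, 75⟩, 2, ⟨3, 4⟩⟩,
  ⟨⟨36, 84⟩, 1, ⟨3, 10⟩, 2, ⟨3, 4⟩⟩,
  ⟨⟨39, 91⟩, 1, ⟨48, 106⟩, -2, ⟨3, 5⟩⟩,
  ⟨⟨48, 111⟩, 1, ⟨48, 107⟩, -2, ⟨3, 5⟩⟩,
  ⟨⟨51, 118⟩, 1, ⟨24, 59⟩, 2, ⟨3, 4⟩⟩,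
  ⟨⟨0, 0⟩, 0, ⟨24, 54⟩, 0, ⟨0, 1⟩⟩,
  ⟨⟨0, 1⟩, 0, ⟨36, 83⟩, 0, ⟨0, 1⟩⟩,
  ⟨⟨3, 7⟩, 0, ⟨54, 125⟩, 0, ⟨0, 1⟩⟩,
  ⟨⟨3, 8⟩, 0, ⟨24, 55⟩, 0, ⟨0, 1⟩⟩,
  ⟨⟨3, 9⟩, 0, ⟨54, 124⟩, 0, ⟨0, 1⟩⟩,
  ⟨⟨9, 18⟩, 0, ⟨48, 109⟩, 0, ⟨0, 1⟩⟩,
  ⟨⟨9, 20⟩, 0, ⟨36, 82⟩, 0, ⟨0, 1⟩⟩,
  ⟨⟨9, 21⟩, 0, ⟨42, 97⟩, 0, ⟨0, 1⟩⟩,
  ⟨⟨9, 22⟩, 0, ⟨18, 42⟩, 0, ⟨0, 1⟩⟩,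
  ⟨⟨12, 28⟩, 0, ⟨24, 57⟩, 0, ⟨0, 1⟩⟩,
  ⟨⟨15, 34⟩, 0, ⟨24, 58⟩, 0, ⟨0, 1⟩⟩,
  ⟨⟨18, 40⟩, 0, ⟨48, 108⟩, 0, ⟨0, 1⟩⟩,
  ⟨⟨18, 41⟩, 0, ⟨39, 89⟩, 0, ⟨0, 1⟩⟩,
  ⟨⟨21, 48⟩, 0, ⟨30, 71⟩, 0, ⟨0, 1⟩⟩,
  ⟨⟨21, 49⟩, 0, ⟨30, 67⟩, 0, ⟨0, 1⟩⟩,
  ⟨⟨24, 56⟩, 0, ⟨51, 116⟩, 0, ⟨0, 1⟩⟩,
  ⟨⟨30, 69⟩, 0, ⟨60, 136⟩, 0, ⟨0, 1⟩⟩,
  ⟨⟨36, 80⟩, 0, ⟨48, 110⟩, 0, ⟨0, 1⟩⟩,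
  ⟨⟨39, 88⟩, 0, ⟨39, 90⟩, 0, ⟨0, 1⟩⟩,
  ⟨⟨42, 96⟩, 0, ⟨51, 117⟩, 0, ⟨0, 1⟩⟩,
  ⟨⟨54, 122⟩, 0, ⟨54, 123⟩, 0, ⟨0, 1⟩⟩]

theorem chk17 : famB ⟨60, 137⟩ ⟨30, 73⟩ fam17 = true := by decide +kernel

theorem perfect17 (g : ℕ) (h1 : g % 60 = 17) (h2 : 137 ≤ g) : Perfect g :=
  famB_sound chk17 (t := ((g - 137) / 60 : ℕ)) (by positivity) (by simp only [Lin.ev]; omega)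

def fam19 : List Seg := [
  ⟨⟨24, 58⟩, 1, ⟨24, 52⟩, -2, ⟨3, 4⟩⟩,
  ⟨⟨27, 65⟩, 1, ⟨18, 41⟩, -2, ⟨3, 5⟩⟩,
  ⟨⟨30, 72⟩, 1, ⟨0, 5⟩, 2, ⟨3, 3⟩⟩,
  ⟨⟨33, 77⟩, 1, ⟨42, 93⟩, -2, ⟨3, 5⟩⟩,
  ⟨⟨42, 99⟩, 1, ⟨42, 94⟩, -2, ⟨3, 5⟩⟩,
  ⟨⟨45, 105⟩, 1, ⟨12, 24⟩, -2, ⟨3, 5⟩⟩,
  ⟨⟨48, 112⟩, 1, ⟨6, 10⟩, -2, ⟨3, 5⟩⟩,
  ⟨⟨51, 119⟩, 1, ⟨18, 42⟩, -2, ⟨3, 5⟩⟩,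
  ⟨⟨54, 126⟩, 1, ⟨12, 25⟩, -2, ⟨3, 6⟩⟩,
  ⟨⟨57, 133⟩, 1, ⟨24, 51⟩, -2, ⟨3, 5⟩⟩,
  ⟨⟨0, 0⟩, 0, ⟨27, 64⟩, 0, ⟨0, 1⟩⟩,
  ⟨⟨0, 1⟩, 0, ⟨27, 62⟩, 0, ⟨0, 1⟩⟩,
  ⟨⟨0, 3⟩, 0, ⟨42, 95⟩, 0, ⟨0, 1⟩⟩,
  ⟨⟨6, 11⟩, 0, ⟨57, 132⟩, 0, ⟨0, 1⟩⟩,
  ⟨⟨6, 12⟩, 0, ⟨36, 83⟩, 0, ⟨0, 1⟩⟩,
  ⟨⟨6, 13⟩, 0, ⟨24, 56⟩, 0, ⟨0, 1⟩⟩,
  ⟨⟨6, 14⟩, 0, ⟨24, 53⟩, 0, ⟨0, 1⟩⟩,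
  ⟨⟨12, 26⟩, 0, ⟨30, 70⟩, 0, ⟨0, 1⟩⟩,
  ⟨⟨12, 27⟩, 0, ⟨42, 97⟩, 0, ⟨0, 1⟩⟩,
  ⟨⟨12, 28⟩, 0, ⟨12, 31⟩, 0, ⟨0, 1⟩⟩,
  ⟨⟨12, 29⟩, 0, ⟨30, 71⟩, 0, ⟨0, 1⟩⟩,
  ⟨⟨12, 30⟩, 0, ⟨12, 32⟩, 0, ⟨0, 1⟩⟩,
  ⟨⟨24, 54⟩, 0, ⟨33, 76⟩, 0, ⟨0, 1⟩⟩,
  ⟨⟨24, 55⟩, 0, ⟨51, 118⟩, 0, ⟨0, 1⟩⟩,
  ⟨⟨24, 57⟩, 0, ⟨51, 117⟩, 0, ⟨0, 1⟩⟩,
  ⟨⟨27, 63⟩, 0, ⟨36, 82⟩, 0, ⟨0, 1⟩⟩,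
  ⟨⟨33, 75⟩, 0, ⟨42, 96⟩, 0, ⟨0, 1⟩⟩,
  ⟨⟨36, 84⟩, 0, ⟨54, 125⟩, 0, ⟨0, 1⟩⟩,
  ⟨⟨42, 98⟩, 0, ⟨60, 138⟩, 0, ⟨0, 1⟩⟩,
  ⟨⟨45, 104⟩, 0, ⟨54, 124⟩, 0, ⟨0, 1⟩⟩,
  ⟨⟨48, 110⟩, 0, ⟨48, 111⟩, 0, ⟨0, 1⟩⟩]

theorem chk19 : famB ⟨60, 139⟩ ⟨18, 44⟩ fam19 = true := by decide +kernel

theorem perfect19 (g : ℕ) (h1 : g % 60 = 19) (h2 : 139 ≤ g) : Perfect g :=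
  famB_sound chk19 (t := ((g - 139) / 60 : ℕ)) (by positivity) (by simp only [Lin.ev]; omega)

end Pool.Agent.MP_343cc6_co

end

-- part MP_343cc6_co.Fam1
section

set_option autoImplicit false

namespace Pool.Agent.MP_343cc6_co

open Pool.Agent.Lib.APCheck

def fam21 : List Seg := [
  ⟨⟨6, 22⟩, 1, ⟨33, 114⟩, 2, ⟨3, 7⟩⟩,
  ⟨⟨9, 32⟩, 1, ⟨51, 177⟩, 2, ⟨3, 7⟩⟩,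
  ⟨⟨18, 61⟩, 1, ⟨18, 56⟩, -2, ⟨3, 8⟩⟩,
  ⟨⟨21, 72⟩, 1, ⟨0, 2⟩, 2, ⟨3, 7⟩⟩,
  ⟨⟨24, 82⟩, 1, ⟨33, 109⟩, -2, ⟨3, 8⟩⟩,
  ⟨⟨39, 133⟩, 1, ⟨0, 7⟩, 2, ⟨3, 7⟩⟩,
  ⟨⟨42, 143⟩, 1, ⟨27, 94⟩, 2, ⟨3, 7⟩⟩,
  ⟨⟨45, 153⟩, 1, ⟨33, 115⟩, 2, ⟨3, 7⟩⟩,
  ⟨⟨48, 163⟩, 1, ⟨12, 47⟩, 2, ⟨3, 7⟩⟩,
  ⟨⟨57, 193⟩, 1, ⟨57, 186⟩, -2, ⟨3, 7⟩⟩,
  ⟨⟨0, 0⟩, 0, ⟨51, 170⟩, 0, ⟨0, 1⟩⟩,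
  ⟨⟨0, 1⟩, 0, ⟨18, 58⟩, 0, ⟨0, 1⟩⟩,
  ⟨⟨0, 3⟩, 0, ⟨60, 200⟩, 0, ⟨0, 1⟩⟩,
  ⟨⟨6, 16⟩, 0, ⟨27, 90⟩, 0, ⟨0, 1⟩⟩,
  ⟨⟨6, 18⟩, 0, ⟨6, 20⟩, 0, ⟨0, 1⟩⟩,
  ⟨⟨6, 21⟩, 0, ⟨18, 60⟩, 0, ⟨0, 1⟩⟩,
  ⟨⟨9, 29⟩, 0, ⟨27, 92⟩, 0, ⟨0, 1⟩⟩,
  ⟨⟨9, 30⟩, 0, ⟨51, 171⟩, 0, ⟨0, 1⟩⟩,
  ⟨⟨9, 31⟩, 0, ⟨39, 130⟩, 0, ⟨0, 1⟩⟩,
  ⟨⟨12, 39⟩, 0, ⟨24, 79⟩, 0, ⟨0, 1⟩⟩,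
  ⟨⟨12, 40⟩, 0, ⟨33, 113⟩, 0, ⟨0, 1⟩⟩,
  ⟨⟨12, 41⟩, 0, ⟨42, 141⟩, 0, ⟨0, 1⟩⟩,
  ⟨⟨12, 43⟩, 0, ⟨48, 162⟩, 0, ⟨0, 1⟩⟩,
  ⟨⟨12, 45⟩, 0, ⟨51, 175⟩, 0, ⟨0, 1⟩⟩,
  ⟨⟨21, 69⟩, 0, ⟨33, 111⟩, 0, ⟨0, 1⟩⟩,
  ⟨⟨21, 70⟩, 0, ⟨57, 188⟩, 0, ⟨0, 1⟩⟩,
  ⟨⟨21, 71⟩, 0, ⟨33, 112⟩, 0, ⟨0, 1⟩⟩,
  ⟨⟨24, 80⟩, 0, ⟨45, 152⟩, 0, ⟨0, 1⟩⟩,
  ⟨⟨24, 81⟩, 0, ⟨42, 142⟩, 0, ⟨0, 1⟩⟩,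
  ⟨⟨27, 91⟩, 0, ⟨45, 150⟩, 0, ⟨0, 1⟩⟩,
  ⟨⟨27, 93⟩, 0, ⟨45, 151⟩, 0, ⟨0, 1⟩⟩,
  ⟨⟨33, 108⟩, 0, ⟨57, 192⟩, 0, ⟨0, 1⟩⟩,
  ⟨⟨33, 110⟩, 0, ⟨42, 140⟩, 0, ⟨0, 1⟩⟩,
  ⟨⟨39, 128⟩, 0, ⟨39, 131⟩, 0, ⟨0, 1⟩⟩,
  ⟨⟨39, 129⟩, 0, ⟨57, 191⟩, 0, ⟨0, 1⟩⟩,
  ⟨⟨39, 132⟩, 0, ⟨48, 160⟩, 0, ⟨0, 1⟩⟩,
  ⟨⟨48, 161⟩, 0, ⟨57, 190⟩, 0, ⟨0, 1⟩⟩,
  ⟨⟨51, 172⟩, 0, ⟨51, 173⟩, 0, ⟨0, 1⟩⟩]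

theorem chk21 : famB ⟨60, 201⟩ ⟨0, 5⟩ fam21 = true := by decide +kernel

theorem perfect21 (g : ℕ) (h1 : g % 60 = 21) (h2 : 201 ≤ g) : Perfect g :=
  famB_sound chk21 (t := ((g - 201) / 60 : ℕ)) (by positivity) (by simp only [Lin.ev]; omega)

def fam23 : List Seg := [
  ⟨⟨3, 9⟩, 1, ⟨30, 76⟩, 2, ⟨3, 4⟩⟩,
  ⟨⟨6, 16⟩, 1, ⟨15, 30⟩, -2, ⟨3, 4⟩⟩,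
  ⟨⟨15, 38⟩, 1, ⟨15, 31⟩, -2, ⟨3, 4⟩⟩,
  ⟨⟨18, 44⟩, 1, ⟨51, 125⟩, 2, ⟨3, 5⟩⟩,
  ⟨⟨27, 66⟩, 1, ⟨36, 81⟩, -2, ⟨3, 5⟩⟩,
  ⟨⟨36, 87⟩, 1, ⟨57, 134⟩, -2, ⟨3, 5⟩⟩,
  ⟨⟨39, 95⟩, 1, ⟨27, 61⟩, -2, ⟨3, 5⟩⟩,
  ⟨⟨42, 102⟩, 1, ⟨63, 147⟩, -2, ⟨3, 4⟩⟩,
  ⟨⟨45, 109⟩, 1, ⟨21, 56⟩, 2, ⟨3, 4⟩⟩,
  ⟨⟨48, 116⟩, 1, ⟨57, 138⟩, 2, ⟨3, 5⟩⟩,
  ⟨⟨3, 5⟩, 0, ⟨39, 94⟩, 0, ⟨0, 1⟩⟩,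
  ⟨⟨3, 6⟩, 0, ⟨36, 84⟩, 0, ⟨0, 1⟩⟩,
  ⟨⟨3, 7⟩, 0, ⟨51, 123⟩, 0, ⟨0, 1⟩⟩,
  ⟨⟨3, 8⟩, 0, ⟨36, 85⟩, 0, ⟨0, 1⟩⟩,
  ⟨⟨6, 13⟩, 0, ⟨57, 137⟩, 0, ⟨0, 1⟩⟩,
  ⟨⟨6, 14⟩, 0, ⟨45, 108⟩, 0, ⟨0, 1⟩⟩,
  ⟨⟨6, 15⟩, 0, ⟨15, 33⟩, 0, ⟨0, 1⟩⟩,
  ⟨⟨9, 20⟩, 0, ⟨48, 115⟩, 0, ⟨0, 1⟩⟩,
  ⟨⟨9, 21⟩, 0, ⟨45, 107⟩, 0, ⟨0, 1⟩⟩,
  ⟨⟨9, 22⟩, 0, ⟨36, 86⟩, 0, ⟨0, 1⟩⟩,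
  ⟨⟨9, 23⟩, 0, ⟨57, 136⟩, 0, ⟨0, 1⟩⟩,
  ⟨⟨15, 32⟩, 0, ⟨27, 65⟩, 0, ⟨0, 1⟩⟩,
  ⟨⟨15, 34⟩, 0, ⟨15, 36⟩, 0, ⟨0, 1⟩⟩,
  ⟨⟨15, 35⟩, 0, ⟨27, 63⟩, 0, ⟨0, 1⟩⟩,
  ⟨⟨15, 37⟩, 0, ⟨51, 124⟩, 0, ⟨0, 1⟩⟩,
  ⟨⟨18, 42⟩, 0, ⟨30, 74⟩, 0, ⟨0, 1⟩⟩,
  ⟨⟨18, 43⟩, 0, ⟨27, 64⟩, 0, ⟨0, 1⟩⟩,
  ⟨⟨21, 49⟩, 0, ⟨51, 121⟩, 0, ⟨0, 1⟩⟩,
  ⟨⟨21, 50⟩, 0, ⟨48, 113⟩, 0, ⟨0, 1⟩⟩,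
  ⟨⟨21, 51⟩, 0, ⟨45, 106⟩, 0, ⟨0, 1⟩⟩,
  ⟨⟨21, 52⟩, 0, ⟨30, 72⟩, 0, ⟨0, 1⟩⟩,
  ⟨⟨21, 54⟩, 0, ⟨30, 71⟩, 0, ⟨0, 1⟩⟩,
  ⟨⟨36, 83⟩, 0, ⟨48, 114⟩, 0, ⟨0, 1⟩⟩,
  ⟨⟨39, 93⟩, 0, ⟨51, 122⟩, 0, ⟨0, 1⟩⟩,
  ⟨⟨42, 100⟩, 0, ⟨42, 101⟩, 0, ⟨0, 1⟩⟩,
  ⟨⟨57, 135⟩, 0, ⟨57, 139⟩, 0, ⟨0, 1⟩⟩]

theorem chk23 : famB ⟨60, 143⟩ ⟨39, 92⟩ fam23 = true := by decide +kernel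

theorem perfect23 (g : ℕ) (h1 : g % 60 = 23) (h2 : 143 ≤ g) : Perfect g :=
  famB_sound chk23 (t := ((g - 143) / 60 : ℕ)) (by positivity) (by simp only [Lin.ev]; omega)

def fam25 : List Seg := [
  ⟨⟨12, 31⟩, 1, ⟨27, 69⟩, 2, ⟨3, 4⟩⟩,
  ⟨⟨15, 38⟩, 1, ⟨24, 56⟩, -2, ⟨3, 5⟩⟩,
  ⟨⟨24, 60⟩, 1, ⟨0, 5⟩, 2, ⟨3, 4⟩⟩,
  ⟨⟨33, 82⟩, 1, ⟨42, 99⟩, -2, ⟨3, 5⟩⟩,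
  ⟨⟨42, 104⟩, 1, ⟨42, 100⟩, -2, ⟨3, 6⟩⟩,
  ⟨⟨45, 110⟩, 1, ⟨18, 47⟩, 2, ⟨3, 5⟩⟩,
  ⟨⟨48, 118⟩, 1, ⟨6, 17⟩, 2, ⟨3, 5⟩⟩,
  ⟨⟨51, 125⟩, 1, ⟨0, 2⟩, 2, ⟨3, 5⟩⟩,
  ⟨⟨54, 133⟩, 1, ⟨6, 16⟩, 2, ⟨3, 7⟩⟩,
  ⟨⟨57, 140⟩, 1, ⟨27, 68⟩, 2, ⟨3, 5⟩⟩,
  ⟨⟨0, 0⟩, 0, ⟨36, 87⟩, 0, ⟨0, 1⟩⟩,
  ⟨⟨0, 1⟩, 0, ⟨33, 81⟩, 0, ⟨0, 1⟩⟩,
  ⟨⟨0, 3⟩, 0, ⟨27, 67⟩, 0, ⟨0, 1⟩⟩,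
  ⟨⟨6, 12⟩, 0, ⟨6, 15⟩, 0, ⟨0, 1⟩⟩,
  ⟨⟨6, 13⟩, 0, ⟨48, 115⟩, 0, ⟨0, 1⟩⟩,
  ⟨⟨6, 14⟩, 0, ⟨15, 35⟩, 0, ⟨0, 1⟩⟩,
  ⟨⟨12, 27⟩, 0, ⟨33, 77⟩, 0, ⟨0, 1⟩⟩,
  ⟨⟨12, 29⟩, 0, ⟨33, 78⟩, 0, ⟨0, 1⟩⟩,
  ⟨⟨12, 30⟩, 0, ⟨27, 65⟩, 0, ⟨0, 1⟩⟩,
  ⟨⟨15, 36⟩, 0, ⟨15, 37⟩, 0, ⟨0, 1⟩⟩,
  ⟨⟨18, 44⟩, 0, ⟨54, 132⟩, 0, ⟨0, 1⟩⟩,
  ⟨⟨18, 45⟩, 0, ⟨42, 101⟩, 0, ⟨0, 1⟩⟩,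
  ⟨⟨18, 46⟩, 0, ⟨36, 88⟩, 0, ⟨0, 1⟩⟩,
  ⟨⟨24, 57⟩, 0, ⟨24, 59⟩, 0, ⟨0, 1⟩⟩,
  ⟨⟨24, 58⟩, 0, ⟨51, 124⟩, 0, ⟨0, 1⟩⟩,
  ⟨⟨27, 64⟩, 0, ⟨54, 131⟩, 0, ⟨0, 1⟩⟩,
  ⟨⟨27, 66⟩, 0, ⟨42, 102⟩, 0, ⟨0, 1⟩⟩,
  ⟨⟨33, 79⟩, 0, ⟨54, 130⟩, 0, ⟨0, 1⟩⟩,
  ⟨⟨33, 80⟩, 0, ⟨48, 117⟩, 0, ⟨0, 1⟩⟩,
  ⟨⟨36, 89⟩, 0, ⟨48, 116⟩, 0, ⟨0, 1⟩⟩,
  ⟨⟨42, 103⟩, 0, ⟨51, 123⟩, 0, ⟨0, 1⟩⟩]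

theorem chk25 : famB ⟨60, 145⟩ ⟨18, 43⟩ fam25 = true := by decide +kernel

theorem perfect25 (g : ℕ) (h1 : g % 60 = 25) (h2 : 145 ≤ g) : Perfect g :=
  famB_sound chk25 (t := ((g - 145) / 60 : ℕ)) (by positivity) (by simp only [Lin.ev]; omega)

def fam27 : List Seg := [
  ⟨⟨0, 0⟩, 1, ⟨60, 144⟩, -2, ⟨3, 6⟩⟩,
  ⟨⟨3, 9⟩, 1, ⟨36, 90⟩, 2, ⟨3, 5⟩⟩,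
  ⟨⟨6, 17⟩, 1, ⟨15, 43⟩, 2, ⟨3, 4⟩⟩,
  ⟨⟨21, 52⟩, 1, ⟨42, 102⟩, 2, ⟨3, 6⟩⟩,
  ⟨⟨24, 61⟩, 1, ⟨54, 135⟩, 2, ⟨3, 4⟩⟩,
  ⟨⟨27, 68⟩, 1, ⟨9, 23⟩, 2, ⟨3, 6⟩⟩,
  ⟨⟨30, 76⟩, 1, ⟨15, 40⟩, 2, ⟨3, 4⟩⟩,
  ⟨⟨33, 82⟩, 1, ⟨42, 99⟩, -2, ⟨3, 5⟩⟩,
  ⟨⟨48, 120⟩, 1, ⟨48, 113⟩, -2, ⟨3, 4⟩⟩,
  ⟨⟨51, 127⟩, 1, ⟨9, 26⟩, 2, ⟨3, 4⟩⟩,
  ⟨⟨3, 6⟩, 0, ⟨54, 131⟩, 0, ⟨0, 1⟩⟩,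
  ⟨⟨3, 7⟩, 0, ⟨27, 66⟩, 0, ⟨0, 1⟩⟩,
  ⟨⟨3, 8⟩, 0, ⟨48, 116⟩, 0, ⟨0, 1⟩⟩,
  ⟨⟨6, 14⟩, 0, ⟨30, 75⟩, 0, ⟨0, 1⟩⟩,
  ⟨⟨6, 15⟩, 0, ⟨42, 105⟩, 0, ⟨0, 1⟩⟩,
  ⟨⟨6, 16⟩, 0, ⟨15, 37⟩, 0, ⟨0, 1⟩⟩,
  ⟨⟨9, 21⟩, 0, ⟨60, 143⟩, 0, ⟨0, 1⟩⟩,
  ⟨⟨9, 22⟩, 0, ⟨9, 24⟩, 0, ⟨0, 1⟩⟩,
  ⟨⟨15, 34⟩, 0, ⟨42, 101⟩, 0, ⟨0, 1⟩⟩,
  ⟨⟨15, 35⟩, 0, ⟨15, 39⟩, 0, ⟨0, 1⟩⟩,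
  ⟨⟨15, 36⟩, 0, ⟨30, 74⟩, 0, ⟨0, 1⟩⟩,
  ⟨⟨15, 38⟩, 0, ⟨24, 58⟩, 0, ⟨0, 1⟩⟩,
  ⟨⟨15, 41⟩, 0, ⟨24, 60⟩, 0, ⟨0, 1⟩⟩,
  ⟨⟨21, 48⟩, 0, ⟨48, 117⟩, 0, ⟨0, 1⟩⟩,
  ⟨⟨21, 50⟩, 0, ⟨48, 118⟩, 0, ⟨0, 1⟩⟩,
  ⟨⟨21, 51⟩, 0, ⟨33, 81⟩, 0, ⟨0, 1⟩⟩,
  ⟨⟨24, 59⟩, 0, ⟨48, 115⟩, 0, ⟨0, 1⟩⟩,
  ⟨⟨27, 65⟩, 0, ⟨51, 125⟩, 0, ⟨0, 1⟩⟩,
  ⟨⟨33, 80⟩, 0, ⟨42, 103⟩, 0, ⟨0, 1⟩⟩,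
  ⟨⟨36, 87⟩, 0, ⟨48, 119⟩, 0, ⟨0, 1⟩⟩,
  ⟨⟨36, 88⟩, 0, ⟨60, 146⟩, 0, ⟨0, 1⟩⟩,
  ⟨⟨36, 89⟩, 0, ⟨51, 126⟩, 0, ⟨0, 1⟩⟩,
  ⟨⟨42, 100⟩, 0, ⟨51, 124⟩, 0, ⟨0, 1⟩⟩,
  ⟨⟨48, 114⟩, 0, ⟨60, 145⟩, 0, ⟨0, 1⟩⟩,
  ⟨⟨54, 132⟩, 0, ⟨54, 133⟩, 0, ⟨0, 1⟩⟩]

theorem chk27 : famB ⟨60, 147⟩ ⟨27, 67⟩ fam27 = true := by decide +kernel

theorem perfect27 (g : ℕ) (h1 : g % 60 = 27) (h2 : 147 ≤ g) : Perfect g :=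
  famB_sound chk27 (t := ((g - 147) / 60 : ℕ)) (by positivity) (by simp only [Lin.ev]; omega)

def fam29 : List Seg := [
  ⟨⟨0, 2⟩, 1, ⟨21, 54⟩, 2, ⟨3, 7⟩⟩,
  ⟨⟨3, 9⟩, 1, ⟨12, 29⟩, -2, ⟨3, 6⟩⟩,
  ⟨⟨12, 32⟩, 1, ⟨21, 53⟩, 2, ⟨3, 7⟩⟩,
  ⟨⟨15, 39⟩, 1, ⟨42, 105⟩, 2, ⟨3, 6⟩⟩,
  ⟨⟨18, 47⟩, 1, ⟨42, 108⟩, 2, ⟨3, 5⟩⟩,
  ⟨⟨27, 69⟩, 1, ⟨6, 18⟩, 2, ⟨3, 5⟩⟩,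
  ⟨⟨36, 91⟩, 1, ⟨36, 87⟩, -2, ⟨3, 5⟩⟩,
  ⟨⟨39, 99⟩, 1, ⟨51, 130⟩, 2, ⟨3, 5⟩⟩,
  ⟨⟨48, 120⟩, 1, ⟨30, 78⟩, 2, ⟨3, 6⟩⟩,
  ⟨⟨57, 143⟩, 1, ⟨57, 137⟩, -2, ⟨3, 5⟩⟩,
  ⟨⟨0, 0⟩, 0, ⟨60, 148⟩, 0, ⟨0, 1⟩⟩,
  ⟨⟨0, 1⟩, 0, ⟨18, 45⟩, 0, ⟨0, 1⟩⟩,
  ⟨⟨6, 15⟩, 0, ⟨36, 89⟩, 0, ⟨0, 1⟩⟩,
  ⟨⟨6, 16⟩, 0, ⟨48, 119⟩, 0, ⟨0, 1⟩⟩,
  ⟨⟨6, 17⟩, 0, ⟨18, 46⟩, 0, ⟨0, 1⟩⟩,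
  ⟨⟨12, 28⟩, 0, ⟨57, 141⟩, 0, ⟨0, 1⟩⟩,
  ⟨⟨12, 30⟩, 0, ⟨42, 106⟩, 0, ⟨0, 1⟩⟩,
  ⟨⟨12, 31⟩, 0, ⟨36, 90⟩, 0, ⟨0, 1⟩⟩,
  ⟨⟨21, 52⟩, 0, ⟨39, 97⟩, 0, ⟨0, 1⟩⟩,
  ⟨⟨27, 67⟩, 0, ⟨57, 139⟩, 0, ⟨0, 1⟩⟩,
  ⟨⟨27, 68⟩, 0, ⟨51, 128⟩, 0, ⟨0, 1⟩⟩,
  ⟨⟨30, 74⟩, 0, ⟨30, 77⟩, 0, ⟨0, 1⟩⟩,
  ⟨⟨30, 75⟩, 0, ⟨48, 118⟩, 0, ⟨0, 1⟩⟩,
  ⟨⟨30, 76⟩, 0, ⟨42, 104⟩, 0, ⟨0, 1⟩⟩,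
  ⟨⟨39, 96⟩, 0, ⟨51, 126⟩, 0, ⟨0, 1⟩⟩,
  ⟨⟨39, 98⟩, 0, ⟨48, 117⟩, 0, ⟨0, 1⟩⟩,
  ⟨⟨57, 140⟩, 0, ⟨57, 142⟩, 0, ⟨0, 1⟩⟩]

theorem chk29 : famB ⟨60, 149⟩ ⟨51, 127⟩ fam29 = true := by decide +kernel

theorem perfect29 (g : ℕ) (h1 : g % 60 = 29) (h2 : 149 ≤ g) : Perfect g :=
  famB_sound chk29 (t := ((g - 149) / 60 : ℕ)) (by positivity) (by simp only [Lin.ev]; omega)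

def fam31 : List Seg := [
  ⟨⟨0, 1⟩, 1, ⟨30, 78⟩, 2, ⟨3, 6⟩⟩,
  ⟨⟨3, 10⟩, 1, ⟨12, 34⟩, 2, ⟨3, 4⟩⟩,
  ⟨⟨24, 60⟩, 1, ⟨24, 57⟩, -2, ⟨3, 7⟩⟩,
  ⟨⟨27, 70⟩, 1, ⟨6, 17⟩, 2, ⟨3, 6⟩⟩,
  ⟨⟨36, 92⟩, 1, ⟨36, 87⟩, -2, ⟨3, 6⟩⟩,
  ⟨⟨45, 115⟩, 1, ⟨45, 111⟩, -2, ⟨3, 5⟩⟩,
  ⟨⟨48, 123⟩, 1, ⟨12, 33⟩, 2, ⟨3, 4⟩⟩,
  ⟨⟨51, 130⟩, 1, ⟨6, 16⟩, 2, ⟨3, 5⟩⟩,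
  ⟨⟨54, 138⟩, 1, ⟨39, 102⟩, 2, ⟨3, 4⟩⟩,
  ⟨⟨57, 145⟩, 1, ⟨18, 48⟩, 2, ⟨3, 5⟩⟩,
  ⟨⟨0, 0⟩, 0, ⟨48, 122⟩, 0, ⟨0, 1⟩⟩,
  ⟨⟨3, 7⟩, 0, ⟨12, 26⟩, 0, ⟨0, 1⟩⟩,
  ⟨⟨3, 8⟩, 0, ⟨12, 31⟩, 0, ⟨0, 1⟩⟩,
  ⟨⟨3, 9⟩, 0, ⟨39, 101⟩, 0, ⟨0, 1⟩⟩,
  ⟨⟨6, 14⟩, 0, ⟨36, 90⟩, 0, ⟨0, 1⟩⟩,
  ⟨⟨6, 15⟩, 0, ⟨18, 46⟩, 0, ⟨0, 1⟩⟩,
  ⟨⟨12, 28⟩, 0, ⟨12, 29⟩, 0, ⟨0, 1⟩⟩,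
  ⟨⟨12, 30⟩, 0, ⟨48, 121⟩, 0, ⟨0, 1⟩⟩,
  ⟨⟨12, 32⟩, 0, ⟨30, 76⟩, 0, ⟨0, 1⟩⟩,
  ⟨⟨18, 41⟩, 0, ⟨60, 150⟩, 0, ⟨0, 1⟩⟩,
  ⟨⟨18, 42⟩, 0, ⟨36, 89⟩, 0, ⟨0, 1⟩⟩,
  ⟨⟨18, 43⟩, 0, ⟨51, 129⟩, 0, ⟨0, 1⟩⟩,
  ⟨⟨18, 44⟩, 0, ⟨45, 110⟩, 0, ⟨0, 1⟩⟩,
  ⟨⟨24, 58⟩, 0, ⟨57, 142⟩, 0, ⟨0, 1⟩⟩,
  ⟨⟨24, 59⟩, 0, ⟨51, 127⟩, 0, ⟨0, 1⟩⟩,
  ⟨⟨27, 67⟩, 0, ⟨39, 99⟩, 0, ⟨0, 1⟩⟩,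
  ⟨⟨27, 68⟩, 0, ⟨45, 114⟩, 0, ⟨0, 1⟩⟩,
  ⟨⟨27, 69⟩, 0, ⟨45, 112⟩, 0, ⟨0, 1⟩⟩,
  ⟨⟨36, 91⟩, 0, ⟨54, 136⟩, 0, ⟨0, 1⟩⟩,
  ⟨⟨39, 98⟩, 0, ⟨48, 120⟩, 0, ⟨0, 1⟩⟩,
  ⟨⟨39, 100⟩, 0, ⟨51, 128⟩, 0, ⟨0, 1⟩⟩,
  ⟨⟨45, 113⟩, 0, ⟨57, 143⟩, 0, ⟨0, 1⟩⟩,
  ⟨⟨54, 135⟩, 0, ⟨54, 137⟩, 0, ⟨0, 1⟩⟩]

theorem chk31 : famB ⟨60, 151⟩ ⟨57, 144⟩ fam31 = true := by decide +kernel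

theorem perfect31 (g : ℕ) (h1 : g % 60 = 31) (h2 : 151 ≤ g) : Perfect g :=
  famB_sound chk31 (t := ((g - 151) / 60 : ℕ)) (by positivity) (by simp only [Lin.ev]; omega)

def fam33 : List Seg := [
  ⟨⟨6, 17⟩, 1, ⟨27, 71⟩, 2, ⟨3, 5⟩⟩,
  ⟨⟨9, 23⟩, 1, ⟨42, 108⟩, 2, ⟨3, 7⟩⟩,
  ⟨⟨12, 33⟩, 1, ⟨54, 139⟩, 2, ⟨3, 6⟩⟩,
  ⟨⟨15, 40⟩, 1, ⟨0, 3⟩, 2, ⟨3, 6⟩⟩,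
  ⟨⟨24, 63⟩, 1, ⟨24, 57⟩, -2, ⟨3, 5⟩⟩,
  ⟨⟨33, 86⟩, 1, ⟨33, 82⟩, -2, ⟨3, 6⟩⟩,
  ⟨⟨36, 94⟩, 1, ⟨54, 142⟩, 2, ⟨3, 4⟩⟩,
  ⟨⟨39, 98⟩, 1, ⟨48, 121⟩, -2, ⟨3, 8⟩⟩,
  ⟨⟨48, 124⟩, 1, ⟨18, 50⟩, 2, ⟨3, 5⟩⟩,
  ⟨⟨51, 130⟩, 1, ⟨0, 2⟩, 2, ⟨3, 7⟩⟩,
  ⟨⟨0, 0⟩, 0, ⟨36, 93⟩, 0, ⟨0, 1⟩⟩,
  ⟨⟨0, 1⟩, 0, ⟨60, 151⟩, 0, ⟨0, 1⟩⟩,
  ⟨⟨6, 15⟩, 0, ⟨36, 92⟩, 0, ⟨0, 1⟩⟩,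
  ⟨⟨6, 16⟩, 0, ⟨33, 85⟩, 0, ⟨0, 1⟩⟩,
  ⟨⟨9, 22⟩, 0, ⟨48, 123⟩, 0, ⟨0, 1⟩⟩,
  ⟨⟨12, 30⟩, 0, ⟨27, 69⟩, 0, ⟨0, 1⟩⟩,
  ⟨⟨12, 31⟩, 0, ⟨33, 84⟩, 0, ⟨0, 1⟩⟩,
  ⟨⟨12, 32⟩, 0, ⟨27, 70⟩, 0, ⟨0, 1⟩⟩,
  ⟨⟨15, 39⟩, 0, ⟨60, 152⟩, 0, ⟨0, 1⟩⟩,
  ⟨⟨18, 46⟩, 0, ⟨27, 68⟩, 0, ⟨0, 1⟩⟩,
  ⟨⟨18, 47⟩, 0, ⟨42, 106⟩, 0, ⟨0, 1⟩⟩,
  ⟨⟨18, 48⟩, 0, ⟨54, 140⟩, 0, ⟨0, 1⟩⟩,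
  ⟨⟨24, 59⟩, 0, ⟨33, 83⟩, 0, ⟨0, 1⟩⟩,
  ⟨⟨24, 60⟩, 0, ⟨54, 138⟩, 0, ⟨0, 1⟩⟩,
  ⟨⟨24, 61⟩, 0, ⟨24, 62⟩, 0, ⟨0, 1⟩⟩,
  ⟨⟨33, 81⟩, 0, ⟨48, 122⟩, 0, ⟨0, 1⟩⟩,
  ⟨⟨51, 129⟩, 0, ⟨60, 150⟩, 0, ⟨0, 1⟩⟩]

theorem chk33 : famB ⟨60, 153⟩ ⟨54, 137⟩ fam33 = true := by decide +kernel

theorem perfect33 (g : ℕ) (h1 : g % 60 = 33) (h2 : 153 ≤ g) : Perfect g :=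
  famB_sound chk33 (t := ((g - 153) / 60 : ℕ)) (by positivity) (by simp only [Lin.ev]; omega)

def fam35 : List Seg := [
  ⟨⟨6, 16⟩, 1, ⟨18, 49⟩, 2, ⟨3, 6⟩⟩,
  ⟨⟨9, 25⟩, 1, ⟨39, 104⟩, 2, ⟨3, 5⟩⟩,
  ⟨⟨24, 63⟩, 1, ⟨24, 58⟩, -2, ⟨3, 6⟩⟩,
  ⟨⟨27, 72⟩, 1, ⟨0, 4⟩, 2, ⟨3, 5⟩⟩,
  ⟨⟨30, 80⟩, 1, ⟨39, 105⟩, 2, ⟨3, 5⟩⟩,
  ⟨⟨33, 87⟩, 1, ⟨48, 128⟩, 2, ⟨3, 5⟩⟩,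
  ⟨⟨36, 95⟩, 1, ⟨12, 33⟩, 2, ⟨3, 5⟩⟩,
  ⟨⟨45, 117⟩, 1, ⟨54, 135⟩, -2, ⟨3, 6⟩⟩,
  ⟨⟨54, 142⟩, 1, ⟨12, 36⟩, 2, ⟨3, 4⟩⟩,
  ⟨⟨57, 149⟩, 1, ⟨6, 13⟩, -2, ⟨3, 5⟩⟩,
  ⟨⟨0, 0⟩, 0, ⟨39, 101⟩, 0, ⟨0, 1⟩⟩,
  ⟨⟨0, 2⟩, 0, ⟨39, 100⟩, 0, ⟨0, 1⟩⟩,
  ⟨⟨0, 3⟩, 0, ⟨12, 34⟩, 0, ⟨0, 1⟩⟩,
  ⟨⟨6, 14⟩, 0, ⟨27, 69⟩, 0, ⟨0, 1⟩⟩,
  ⟨⟨6, 15⟩, 0, ⟨48, 124⟩, 0, ⟨0, 1⟩⟩,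
  ⟨⟨9, 22⟩, 0, ⟨36, 93⟩, 0, ⟨0, 1⟩⟩,
  ⟨⟨9, 23⟩, 0, ⟨18, 47⟩, 0, ⟨0, 1⟩⟩,
  ⟨⟨9, 24⟩, 0, ⟨48, 126⟩, 0, ⟨0, 1⟩⟩,
  ⟨⟨12, 30⟩, 0, ⟨30, 78⟩, 0, ⟨0, 1⟩⟩,
  ⟨⟨12, 31⟩, 0, ⟨54, 139⟩, 0, ⟨0, 1⟩⟩,
  ⟨⟨12, 32⟩, 0, ⟨57, 148⟩, 0, ⟨0, 1⟩⟩,
  ⟨⟨18, 43⟩, 0, ⟨18, 44⟩, 0, ⟨0, 1⟩⟩,
  ⟨⟨18, 45⟩, 0, ⟨33, 85⟩, 0, ⟨0, 1⟩⟩,
  ⟨⟨18, 46⟩, 0, ⟨39, 102⟩, 0, ⟨0, 1⟩⟩,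
  ⟨⟨24, 60⟩, 0, ⟨54, 138⟩, 0, ⟨0, 1⟩⟩,
  ⟨⟨24, 61⟩, 0, ⟨57, 147⟩, 0, ⟨0, 1⟩⟩,
  ⟨⟨24, 62⟩, 0, ⟨60, 154⟩, 0, ⟨0, 1⟩⟩,
  ⟨⟨27, 70⟩, 0, ⟨54, 140⟩, 0, ⟨0, 1⟩⟩,
  ⟨⟨27, 71⟩, 0, ⟨39, 103⟩, 0, ⟨0, 1⟩⟩,
  ⟨⟨30, 77⟩, 0, ⟨30, 79⟩, 0, ⟨0, 1⟩⟩,
  ⟨⟨33, 86⟩, 0, ⟨45, 116⟩, 0, ⟨0, 1⟩⟩,
  ⟨⟨36, 92⟩, 0, ⟨45, 114⟩, 0, ⟨0, 1⟩⟩,
  ⟨⟨36, 94⟩, 0, ⟨45, 115⟩, 0, ⟨0, 1⟩⟩,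
  ⟨⟨48, 123⟩, 0, ⟨57, 146⟩, 0, ⟨0, 1⟩⟩,
  ⟨⟨54, 137⟩, 0, ⟨54, 141⟩, 0, ⟨0, 1⟩⟩]

theorem chk35 : famB ⟨60, 155⟩ ⟨0, 1⟩ fam35 = true := by decide +kernel

theorem perfect35 (g : ℕ) (h1 : g % 60 = 35) (h2 : 155 ≤ g) : Perfect g :=
  famB_sound chk35 (t := ((g - 155) / 60 : ℕ)) (by positivity) (by simp only [Lin.ev]; omega)

def fam37 : List Seg := [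
  ⟨⟨6, 24⟩, 1, ⟨45, 166⟩, 2, ⟨3, 9⟩⟩,
  ⟨⟨15, 55⟩, 1, ⟨15, 49⟩, -2, ⟨3, 9⟩⟩,
  ⟨⟨18, 67⟩, 1, ⟨30, 110⟩, 2, ⟨3, 10⟩⟩,
  ⟨⟨21, 78⟩, 1, ⟨54, 199⟩, 2, ⟨3, 8⟩⟩,
  ⟨⟨24, 89⟩, 1, ⟨54, 198⟩, 2, ⟨3, 9⟩⟩,
  ⟨⟨27, 100⟩, 1, ⟨9, 40⟩, 2, ⟨3, 8⟩⟩,
  ⟨⟨36, 131⟩, 1, ⟨36, 127⟩, -2, ⟨3, 9⟩⟩,
  ⟨⟨39, 142⟩, 1, ⟨0, 5⟩, 2, ⟨3, 9⟩⟩,
  ⟨⟨42, 154⟩, 1, ⟨51, 183⟩, -2, ⟨3, 9⟩⟩,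
  ⟨⟨51, 185⟩, 1, ⟨0, 0⟩, 2, ⟨3, 10⟩⟩,
  ⟨⟨0, 1⟩, 0, ⟨39, 140⟩, 0, ⟨0, 1⟩⟩,
  ⟨⟨0, 3⟩, 0, ⟨18, 64⟩, 0, ⟨0, 1⟩⟩,
  ⟨⟨6, 20⟩, 0, ⟨6, 23⟩, 0, ⟨0, 1⟩⟩,
  ⟨⟨6, 22⟩, 0, ⟨54, 197⟩, 0, ⟨0, 1⟩⟩,
  ⟨⟨9, 34⟩, 0, ⟨27, 99⟩, 0, ⟨0, 1⟩⟩,
  ⟨⟨9, 36⟩, 0, ⟨9, 38⟩, 0, ⟨0, 1⟩⟩,
  ⟨⟨15, 51⟩, 0, ⟨36, 130⟩, 0, ⟨0, 1⟩⟩,
  ⟨⟨15, 53⟩, 0, ⟨36, 129⟩, 0, ⟨0, 1⟩⟩,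
  ⟨⟨18, 65⟩, 0, ⟨60, 216⟩, 0, ⟨0, 1⟩⟩,
  ⟨⟨18, 66⟩, 0, ⟨45, 165⟩, 0, ⟨0, 1⟩⟩,
  ⟨⟨21, 77⟩, 0, ⟨39, 141⟩, 0, ⟨0, 1⟩⟩,
  ⟨⟨24, 86⟩, 0, ⟨45, 163⟩, 0, ⟨0, 1⟩⟩,
  ⟨⟨24, 87⟩, 0, ⟨51, 184⟩, 0, ⟨0, 1⟩⟩,
  ⟨⟨24, 88⟩, 0, ⟨42, 151⟩, 0, ⟨0, 1⟩⟩,
  ⟨⟨27, 98⟩, 0, ⟨54, 196⟩, 0, ⟨0, 1⟩⟩,
  ⟨⟨30, 108⟩, 0, ⟨30, 109⟩, 0, ⟨0, 1⟩⟩,
  ⟨⟨42, 153⟩, 0, ⟨60, 215⟩, 0, ⟨0, 1⟩⟩,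
  ⟨⟨45, 164⟩, 0, ⟨54, 195⟩, 0, ⟨0, 1⟩⟩]

theorem chk37 : famB ⟨60, 217⟩ ⟨42, 152⟩ fam37 = true := by decide +kernel

theorem perfect37 (g : ℕ) (h1 : g % 60 = 37) (h2 : 217 ≤ g) : Perfect g :=
  famB_sound chk37 (t := ((g - 217) / 60 : ℕ)) (by positivity) (by simp only [Lin.ev]; omega)

def fam39 : List Seg := [
  ⟨⟨0, 1⟩, 1, ⟨9, 21⟩, -2, ⟨3, 6⟩⟩,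
  ⟨⟨9, 25⟩, 1, ⟨30, 80⟩, -2, ⟨3, 7⟩⟩,
  ⟨⟨12, 34⟩, 1, ⟨60, 155⟩, -2, ⟨3, 5⟩⟩,
  ⟨⟨15, 41⟩, 1, ⟨36, 92⟩, -2, ⟨3, 6⟩⟩,
  ⟨⟨18, 50⟩, 1, ⟨54, 146⟩, 2, ⟨3, 5⟩⟩,
  ⟨⟨21, 58⟩, 1, ⟨30, 81⟩, 2, ⟨3, 5⟩⟩,
  ⟨⟨36, 97⟩, 1, ⟨3, 10⟩, 2, ⟨3, 5⟩⟩,
  ⟨⟨39, 104⟩, 1, ⟨48, 123⟩, -2, ⟨3, 6⟩⟩,
  ⟨⟨48, 127⟩, 1, ⟨48, 124⟩, -2, ⟨3, 7⟩⟩,
  ⟨⟨51, 136⟩, 1, ⟨24, 67⟩, 2, ⟨3, 6⟩⟩,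
  ⟨⟨3, 7⟩, 0, ⟨24, 64⟩, 0, ⟨0, 1⟩⟩,
  ⟨⟨3, 8⟩, 0, ⟨54, 145⟩, 0, ⟨0, 1⟩⟩,
  ⟨⟨3, 9⟩, 0, ⟨51, 134⟩, 0, ⟨0, 1⟩⟩,
  ⟨⟨9, 20⟩, 0, ⟨9, 22⟩, 0, ⟨0, 1⟩⟩,
  ⟨⟨9, 23⟩, 0, ⟨39, 102⟩, 0, ⟨0, 1⟩⟩,
  ⟨⟨9, 24⟩, 0, ⟨36, 94⟩, 0, ⟨0, 1⟩⟩,
  ⟨⟨12, 32⟩, 0, ⟨60, 158⟩, 0, ⟨0, 1⟩⟩,
  ⟨⟨12, 33⟩, 0, ⟨24, 63⟩, 0, ⟨0, 1⟩⟩,
  ⟨⟨15, 39⟩, 0, ⟨54, 144⟩, 0, ⟨0, 1⟩⟩,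
  ⟨⟨15, 40⟩, 0, ⟨36, 96⟩, 0, ⟨0, 1⟩⟩,
  ⟨⟨18, 47⟩, 0, ⟨48, 125⟩, 0, ⟨0, 1⟩⟩,
  ⟨⟨18, 48⟩, 0, ⟨18, 49⟩, 0, ⟨0, 1⟩⟩,
  ⟨⟨21, 55⟩, 0, ⟨54, 143⟩, 0, ⟨0, 1⟩⟩,
  ⟨⟨21, 56⟩, 0, ⟨60, 157⟩, 0, ⟨0, 1⟩⟩,
  ⟨⟨21, 57⟩, 0, ⟨42, 110⟩, 0, ⟨0, 1⟩⟩,
  ⟨⟨24, 65⟩, 0, ⟨36, 93⟩, 0, ⟨0, 1⟩⟩,
  ⟨⟨24, 66⟩, 0, ⟨36, 95⟩, 0, ⟨0, 1⟩⟩,
  ⟨⟨30, 79⟩, 0, ⟨60, 156⟩, 0, ⟨0, 1⟩⟩,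
  ⟨⟨36, 91⟩, 0, ⟨48, 126⟩, 0, ⟨0, 1⟩⟩,
  ⟨⟨39, 103⟩, 0, ⟨51, 135⟩, 0, ⟨0, 1⟩⟩,
  ⟨⟨42, 111⟩, 0, ⟨54, 142⟩, 0, ⟨0, 1⟩⟩]

theorem chk39 : famB ⟨60, 159⟩ ⟨0, 0⟩ fam39 = true := by decide +kernel

theorem perfect39 (g : ℕ) (h1 : g % 60 = 39) (h2 : 159 ≤ g) : Perfect g :=
  famB_sound chk39 (t := ((g - 159) / 60 : ℕ)) (by positivity) (by simp only [Lin.ev]; omega)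

end Pool.Agent.MP_343cc6_co

end

-- part MP_343cc6_co.Fam2
section

set_option autoImplicit false

namespace Pool.Agent.MP_343cc6_co

open Pool.Agent.Lib.APCheck

def fam41 : List Seg := [
  ⟨⟨6, 16⟩, 1, ⟨6, 14⟩, -2, ⟨3, 8⟩⟩,
  ⟨⟨9, 25⟩, 1, ⟨48, 132⟩, 2, ⟨3, 7⟩⟩,
  ⟨⟨12, 34⟩, 1, ⟨21, 55⟩, -2, ⟨3, 7⟩⟩,
  ⟨⟨27, 74⟩, 1, ⟨48, 131⟩, 2, ⟨3, 6⟩⟩,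
  ⟨⟨30, 83⟩, 1, ⟨15, 42⟩, 2, ⟨3, 5⟩⟩,
  ⟨⟨33, 90⟩, 1, ⟨21, 59⟩, 2, ⟨3, 6⟩⟩,
  ⟨⟨36, 99⟩, 1, ⟨0, 1⟩, 2, ⟨3, 6⟩⟩,
  ⟨⟨45, 123⟩, 1, ⟨45, 119⟩, -2, ⟨3, 6⟩⟩,
  ⟨⟨54, 147⟩, 1, ⟨21, 62⟩, 2, ⟨3, 5⟩⟩,
  ⟨⟨57, 155⟩, 1, ⟨39, 108⟩, 2, ⟨3, 5⟩⟩,
  ⟨⟨6, 13⟩, 0, ⟨33, 88⟩, 0, ⟨0, 1⟩⟩,
  ⟨⟨6, 15⟩, 0, ⟨45, 121⟩, 0, ⟨0, 1⟩⟩,
  ⟨⟨9, 24⟩, 0, ⟨21, 58⟩, 0, ⟨0, 1⟩⟩,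
  ⟨⟨12, 32⟩, 0, ⟨45, 122⟩, 0, ⟨0, 1⟩⟩,
  ⟨⟨12, 33⟩, 0, ⟨45, 120⟩, 0, ⟨0, 1⟩⟩,
  ⟨⟨15, 41⟩, 0, ⟨60, 160⟩, 0, ⟨0, 1⟩⟩,
  ⟨⟨21, 52⟩, 0, ⟨54, 143⟩, 0, ⟨0, 1⟩⟩,
  ⟨⟨21, 54⟩, 0, ⟨54, 146⟩, 0, ⟨0, 1⟩⟩,
  ⟨⟨21, 56⟩, 0, ⟨21, 57⟩, 0, ⟨0, 1⟩⟩,
  ⟨⟨21, 60⟩, 0, ⟨30, 82⟩, 0, ⟨0, 1⟩⟩,
  ⟨⟨27, 71⟩, 0, ⟨39, 107⟩, 0, ⟨0, 1⟩⟩,
  ⟨⟨27, 72⟩, 0, ⟨39, 105⟩, 0, ⟨0, 1⟩⟩,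
  ⟨⟨27, 73⟩, 0, ⟨36, 98⟩, 0, ⟨0, 1⟩⟩,
  ⟨⟨30, 80⟩, 0, ⟨57, 152⟩, 0, ⟨0, 1⟩⟩,
  ⟨⟨30, 81⟩, 0, ⟨57, 154⟩, 0, ⟨0, 1⟩⟩,
  ⟨⟨33, 89⟩, 0, ⟨54, 145⟩, 0, ⟨0, 1⟩⟩,
  ⟨⟨36, 97⟩, 0, ⟨48, 129⟩, 0, ⟨0, 1⟩⟩,
  ⟨⟨39, 106⟩, 0, ⟨48, 130⟩, 0, ⟨0, 1⟩⟩,
  ⟨⟨45, 118⟩, 0, ⟨57, 153⟩, 0, ⟨0, 1⟩⟩]

theorem chk41 : famB ⟨60, 161⟩ ⟨36, 96⟩ fam41 = true := by decide +kernel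

theorem perfect41 (g : ℕ) (h1 : g % 60 = 41) (h2 : 161 ≤ g) : Perfect g :=
  famB_sound chk41 (t := ((g - 161) / 60 : ℕ)) (by positivity) (by simp only [Lin.ev]; omega)

def fam43 : List Seg := [
  ⟨⟨3, 9⟩, 1, ⟨51, 140⟩, 2, ⟨3, 6⟩⟩,
  ⟨⟨6, 18⟩, 1, ⟨33, 93⟩, 2, ⟨3, 5⟩⟩,
  ⟨⟨9, 26⟩, 1, ⟨45, 124⟩, 2, ⟨3, 6⟩⟩,
  ⟨⟨12, 35⟩, 1, ⟨24, 68⟩, 2, ⟨3, 6⟩⟩,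
  ⟨⟨15, 42⟩, 1, ⟨57, 159⟩, 2, ⟨3, 6⟩⟩,
  ⟨⟨18, 51⟩, 1, ⟨51, 143⟩, 2, ⟨3, 5⟩⟩,
  ⟨⟨21, 59⟩, 1, ⟨30, 79⟩, -2, ⟨3, 6⟩⟩,
  ⟨⟨30, 83⟩, 1, ⟨39, 102⟩, -2, ⟨3, 6⟩⟩,
  ⟨⟨39, 107⟩, 1, ⟨57, 160⟩, 2, ⟨3, 6⟩⟩,
  ⟨⟨42, 116⟩, 1, ⟨51, 137⟩, -2, ⟨3, 6⟩⟩,
  ⟨⟨3, 8⟩, 0, ⟨45, 123⟩, 0, ⟨0, 1⟩⟩,
  ⟨⟨6, 15⟩, 0, ⟨24, 67⟩, 0, ⟨0, 1⟩⟩,
  ⟨⟨6, 16⟩, 0, ⟨24, 65⟩, 0, ⟨0, 1⟩⟩,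
  ⟨⟨6, 17⟩, 0, ⟨57, 158⟩, 0, ⟨0, 1⟩⟩,
  ⟨⟨9, 23⟩, 0, ⟨18, 49⟩, 0, ⟨0, 1⟩⟩,
  ⟨⟨9, 24⟩, 0, ⟨39, 104⟩, 0, ⟨0, 1⟩⟩,
  ⟨⟨9, 25⟩, 0, ⟨18, 48⟩, 0, ⟨0, 1⟩⟩,
  ⟨⟨12, 32⟩, 0, ⟨57, 155⟩, 0, ⟨0, 1⟩⟩,
  ⟨⟨12, 33⟩, 0, ⟨57, 157⟩, 0, ⟨0, 1⟩⟩,
  ⟨⟨12, 34⟩, 0, ⟨21, 58⟩, 0, ⟨0, 1⟩⟩,
  ⟨⟨15, 41⟩, 0, ⟨42, 113⟩, 0, ⟨0, 1⟩⟩,
  ⟨⟨18, 50⟩, 0, ⟨51, 139⟩, 0, ⟨0, 1⟩⟩,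
  ⟨⟨21, 56⟩, 0, ⟨45, 122⟩, 0, ⟨0, 1⟩⟩,
  ⟨⟨21, 57⟩, 0, ⟨51, 138⟩, 0, ⟨0, 1⟩⟩,
  ⟨⟨24, 66⟩, 0, ⟨45, 125⟩, 0, ⟨0, 1⟩⟩,
  ⟨⟨30, 80⟩, 0, ⟨57, 153⟩, 0, ⟨0, 1⟩⟩,
  ⟨⟨30, 81⟩, 0, ⟨30, 82⟩, 0, ⟨0, 1⟩⟩,
  ⟨⟨33, 89⟩, 0, ⟨51, 136⟩, 0, ⟨0, 1⟩⟩,
  ⟨⟨33, 90⟩, 0, ⟨42, 115⟩, 0, ⟨0, 1⟩⟩,
  ⟨⟨33, 91⟩, 0, ⟨51, 141⟩, 0, ⟨0, 1⟩⟩,
  ⟨⟨39, 103⟩, 0, ⟨39, 106⟩, 0, ⟨0, 1⟩⟩,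
  ⟨⟨39, 105⟩, 0, ⟨57, 156⟩, 0, ⟨0, 1⟩⟩,
  ⟨⟨57, 152⟩, 0, ⟨57, 154⟩, 0, ⟨0, 1⟩⟩]

theorem chk43 : famB ⟨60, 163⟩ ⟨42, 114⟩ fam43 = true := by decide +kernel

theorem perfect43 (g : ℕ) (h1 : g % 60 = 43) (h2 : 163 ≤ g) : Perfect g :=
  famB_sound chk43 (t := ((g - 163) / 60 : ℕ)) (by positivity) (by simp only [Lin.ev]; omega)

def fam45 : List Seg := [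
  ⟨⟨3, 10⟩, 1, ⟨63, 169⟩, -2, ⟨3, 6⟩⟩,
  ⟨⟨6, 19⟩, 1, ⟨21, 61⟩, 2, ⟨3, 5⟩⟩,
  ⟨⟨9, 26⟩, 1, ⟨21, 62⟩, 2, ⟨3, 6⟩⟩,
  ⟨⟨18, 52⟩, 1, ⟨57, 158⟩, 2, ⟨3, 6⟩⟩,
  ⟨⟨27, 76⟩, 1, ⟨48, 136⟩, 2, ⟨3, 6⟩⟩,
  ⟨⟨30, 84⟩, 1, ⟨39, 103⟩, -2, ⟨3, 7⟩⟩,
  ⟨⟨39, 109⟩, 1, ⟨12, 36⟩, 2, ⟨3, 6⟩⟩,
  ⟨⟨42, 117⟩, 1, ⟨12, 35⟩, 2, ⟨3, 6⟩⟩,
  ⟨⟨45, 126⟩, 1, ⟨33, 94⟩, 2, ⟨3, 5⟩⟩,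
  ⟨⟨54, 150⟩, 1, ⟨54, 145⟩, -2, ⟨3, 6⟩⟩,
  ⟨⟨3, 5⟩, 0, ⟨54, 148⟩, 0, ⟨0, 1⟩⟩,
  ⟨⟨3, 6⟩, 0, ⟨21, 59⟩, 0, ⟨0, 1⟩⟩,
  ⟨⟨3, 7⟩, 0, ⟨39, 106⟩, 0, ⟨0, 1⟩⟩,
  ⟨⟨3, 8⟩, 0, ⟨45, 124⟩, 0, ⟨0, 1⟩⟩,
  ⟨⟨3, 9⟩, 0, ⟨12, 32⟩, 0, ⟨0, 1⟩⟩,
  ⟨⟨6, 16⟩, 0, ⟨48, 134⟩, 0, ⟨0, 1⟩⟩,
  ⟨⟨6, 17⟩, 0, ⟨33, 92⟩, 0, ⟨0, 1⟩⟩,
  ⟨⟨6, 18⟩, 0, ⟨18, 51⟩, 0, ⟨0, 1⟩⟩,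
  ⟨⟨9, 24⟩, 0, ⟨42, 115⟩, 0, ⟨0, 1⟩⟩,
  ⟨⟨9, 25⟩, 0, ⟨27, 73⟩, 0, ⟨0, 1⟩⟩,
  ⟨⟨12, 33⟩, 0, ⟨54, 147⟩, 0, ⟨0, 1⟩⟩,
  ⟨⟨18, 47⟩, 0, ⟨18, 49⟩, 0, ⟨0, 1⟩⟩,
  ⟨⟨18, 48⟩, 0, ⟨30, 83⟩, 0, ⟨0, 1⟩⟩,
  ⟨⟨18, 50⟩, 0, ⟨27, 74⟩, 0, ⟨0, 1⟩⟩,
  ⟨⟨21, 58⟩, 0, ⟨57, 156⟩, 0, ⟨0, 1⟩⟩,
  ⟨⟨21, 60⟩, 0, ⟨54, 149⟩, 0, ⟨0, 1⟩⟩,
  ⟨⟨27, 71⟩, 0, ⟨45, 123⟩, 0, ⟨0, 1⟩⟩,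
  ⟨⟨27, 75⟩, 0, ⟨45, 125⟩, 0, ⟨0, 1⟩⟩,
  ⟨⟨30, 82⟩, 0, ⟨42, 116⟩, 0, ⟨0, 1⟩⟩,
  ⟨⟨39, 104⟩, 0, ⟨39, 107⟩, 0, ⟨0, 1⟩⟩,
  ⟨⟨39, 105⟩, 0, ⟨48, 132⟩, 0, ⟨0, 1⟩⟩,
  ⟨⟨39, 108⟩, 0, ⟨48, 133⟩, 0, ⟨0, 1⟩⟩,
  ⟨⟨48, 131⟩, 0, ⟨57, 157⟩, 0, ⟨0, 1⟩⟩]

theorem chk45 : famB ⟨60, 165⟩ ⟨12, 34⟩ fam45 = true := by decide +kernel

theorem perfect45 (g : ℕ) (h1 : g % 60 = 45) (h2 : 165 ≤ g) : Perfect g :=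
  famB_sound chk45 (t := ((g - 165) / 60 : ℕ)) (by positivity) (by simp only [Lin.ev]; omega)

def fam47 : List Seg := [
  ⟨⟨3, 9⟩, 1, ⟨63, 172⟩, -2, ⟨3, 8⟩⟩,
  ⟨⟨6, 19⟩, 1, ⟨45, 130⟩, 2, ⟨3, 5⟩⟩,
  ⟨⟨9, 27⟩, 1, ⟨18, 45⟩, -2, ⟨3, 6⟩⟩,
  ⟨⟨24, 69⟩, 1, ⟨45, 127⟩, 2, ⟨3, 6⟩⟩,
  ⟨⟨27, 77⟩, 1, ⟨12, 38⟩, 2, ⟨3, 6⟩⟩,
  ⟨⟨30, 86⟩, 1, ⟨18, 56⟩, 2, ⟨3, 5⟩⟩,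
  ⟨⟨33, 94⟩, 1, ⟨57, 161⟩, 2, ⟨3, 5⟩⟩,
  ⟨⟨42, 119⟩, 1, ⟨42, 114⟩, -2, ⟨3, 6⟩⟩,
  ⟨⟨51, 144⟩, 1, ⟨18, 53⟩, 2, ⟨3, 6⟩⟩,
  ⟨⟨54, 152⟩, 1, ⟨36, 107⟩, 2, ⟨3, 6⟩⟩,
  ⟨⟨3, 4⟩, 0, ⟨45, 125⟩, 0, ⟨0, 1⟩⟩,
  ⟨⟨3, 6⟩, 0, ⟨36, 100⟩, 0, ⟨0, 1⟩⟩,
  ⟨⟨3, 7⟩, 0, ⟨33, 92⟩, 0, ⟨0, 1⟩⟩,
  ⟨⟨3, 8⟩, 0, ⟨45, 128⟩, 0, ⟨0, 1⟩⟩,
  ⟨⟨6, 17⟩, 0, ⟨33, 91⟩, 0, ⟨0, 1⟩⟩,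
  ⟨⟨6, 18⟩, 0, ⟨33, 93⟩, 0, ⟨0, 1⟩⟩,
  ⟨⟨9, 24⟩, 0, ⟨57, 159⟩, 0, ⟨0, 1⟩⟩,
  ⟨⟨9, 25⟩, 0, ⟨51, 143⟩, 0, ⟨0, 1⟩⟩,
  ⟨⟨9, 26⟩, 0, ⟨18, 49⟩, 0, ⟨0, 1⟩⟩,
  ⟨⟨12, 33⟩, 0, ⟨30, 83⟩, 0, ⟨0, 1⟩⟩,
  ⟨⟨12, 34⟩, 0, ⟨36, 99⟩, 0, ⟨0, 1⟩⟩,
  ⟨⟨12, 36⟩, 0, ⟨36, 102⟩, 0, ⟨0, 1⟩⟩,
  ⟨⟨18, 47⟩, 0, ⟨51, 142⟩, 0, ⟨0, 1⟩⟩,
  ⟨⟨18, 50⟩, 0, ⟨18, 52⟩, 0, ⟨0, 1⟩⟩,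
  ⟨⟨18, 51⟩, 0, ⟨27, 75⟩, 0, ⟨0, 1⟩⟩,
  ⟨⟨18, 54⟩, 0, ⟨36, 105⟩, 0, ⟨0, 1⟩⟩,
  ⟨⟨24, 65⟩, 0, ⟨24, 66⟩, 0, ⟨0, 1⟩⟩,
  ⟨⟨24, 67⟩, 0, ⟨54, 150⟩, 0, ⟨0, 1⟩⟩,
  ⟨⟨24, 68⟩, 0, ⟨36, 101⟩, 0, ⟨0, 1⟩⟩,
  ⟨⟨27, 76⟩, 0, ⟨51, 140⟩, 0, ⟨0, 1⟩⟩,
  ⟨⟨30, 84⟩, 0, ⟨51, 141⟩, 0, ⟨0, 1⟩⟩,
  ⟨⟨30, 85⟩, 0, ⟨42, 116⟩, 0, ⟨0, 1⟩⟩,
  ⟨⟨36, 103⟩, 0, ⟨54, 151⟩, 0, ⟨0, 1⟩⟩,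
  ⟨⟨42, 118⟩, 0, ⟨51, 139⟩, 0, ⟨0, 1⟩⟩]

theorem chk47 : famB ⟨60, 167⟩ ⟨45, 126⟩ fam47 = true := by decide +kernel

theorem perfect47 (g : ℕ) (h1 : g % 60 = 47) (h2 : 167 ≤ g) : Perfect g :=
  famB_sound chk47 (t := ((g - 167) / 60 : ℕ)) (by positivity) (by simp only [Lin.ev]; omega)

def fam49 : List Seg := [
  ⟨⟨0, 2⟩, 1, ⟨48, 133⟩, -2, ⟨3, 6⟩⟩,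
  ⟨⟨3, 10⟩, 1, ⟨24, 65⟩, -2, ⟨3, 6⟩⟩,
  ⟨⟨6, 19⟩, 1, ⟨42, 124⟩, 2, ⟨3, 5⟩⟩,
  ⟨⟨9, 27⟩, 1, ⟨18, 54⟩, 2, ⟨3, 6⟩⟩,
  ⟨⟨24, 70⟩, 1, ⟨51, 148⟩, 2, ⟨3, 5⟩⟩,
  ⟨⟨27, 78⟩, 1, ⟨36, 97⟩, -2, ⟨3, 6⟩⟩,
  ⟨⟨36, 102⟩, 1, ⟨36, 96⟩, -2, ⟨3, 7⟩⟩,
  ⟨⟨39, 111⟩, 1, ⟨12, 34⟩, 2, ⟨3, 7⟩⟩,
  ⟨⟨48, 137⟩, 1, ⟨57, 157⟩, -2, ⟨3, 6⟩⟩,
  ⟨⟨57, 161⟩, 1, ⟨18, 49⟩, -2, ⟨3, 7⟩⟩,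
  ⟨⟨0, 1⟩, 0, ⟨24, 66⟩, 0, ⟨0, 1⟩⟩,
  ⟨⟨3, 8⟩, 0, ⟨3, 9⟩, 0, ⟨0, 1⟩⟩,
  ⟨⟨6, 16⟩, 0, ⟨30, 85⟩, 0, ⟨0, 1⟩⟩,
  ⟨⟨6, 17⟩, 0, ⟨36, 100⟩, 0, ⟨0, 1⟩⟩,
  ⟨⟨6, 18⟩, 0, ⟨42, 121⟩, 0, ⟨0, 1⟩⟩,
  ⟨⟨9, 24⟩, 0, ⟨9, 26⟩, 0, ⟨0, 1⟩⟩,
  ⟨⟨9, 25⟩, 0, ⟨57, 160⟩, 0, ⟨0, 1⟩⟩,
  ⟨⟨12, 33⟩, 0, ⟨24, 69⟩, 0, ⟨0, 1⟩⟩,
  ⟨⟨12, 35⟩, 0, ⟨24, 68⟩, 0, ⟨0, 1⟩⟩,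
  ⟨⟨18, 48⟩, 0, ⟨18, 51⟩, 0, ⟨0, 1⟩⟩,
  ⟨⟨18, 50⟩, 0, ⟨42, 118⟩, 0, ⟨0, 1⟩⟩,
  ⟨⟨18, 52⟩, 0, ⟨27, 77⟩, 0, ⟨0, 1⟩⟩,
  ⟨⟨18, 53⟩, 0, ⟨39, 109⟩, 0, ⟨0, 1⟩⟩,
  ⟨⟨24, 67⟩, 0, ⟨48, 134⟩, 0, ⟨0, 1⟩⟩,
  ⟨⟨27, 75⟩, 0, ⟨57, 159⟩, 0, ⟨0, 1⟩⟩,
  ⟨⟨27, 76⟩, 0, ⟨51, 146⟩, 0, ⟨0, 1⟩⟩,
  ⟨⟨36, 98⟩, 0, ⟨48, 135⟩, 0, ⟨0, 1⟩⟩,
  ⟨⟨36, 99⟩, 0, ⟨57, 158⟩, 0, ⟨0, 1⟩⟩,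
  ⟨⟨36, 101⟩, 0, ⟨48, 136⟩, 0, ⟨0, 1⟩⟩,
  ⟨⟨39, 110⟩, 0, ⟨60, 168⟩, 0, ⟨0, 1⟩⟩,
  ⟨⟨42, 119⟩, 0, ⟨51, 145⟩, 0, ⟨0, 1⟩⟩,
  ⟨⟨42, 120⟩, 0, ⟨51, 143⟩, 0, ⟨0, 1⟩⟩,
  ⟨⟨42, 122⟩, 0, ⟨51, 144⟩, 0, ⟨0, 1⟩⟩]

theorem chk49 : famB ⟨60, 169⟩ ⟨0, 0⟩ fam49 = true := by decide +kernel

theorem perfect49 (g : ℕ) (h1 : g % 60 = 49) (h2 : 169 ≤ g) : Perfect g :=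
  famB_sound chk49 (t := ((g - 169) / 60 : ℕ)) (by positivity) (by simp only [Lin.ev]; omega)

def fam51 : List Seg := [
  ⟨⟨3, 6⟩, 1, ⟨33, 64⟩, 2, ⟨3, 4⟩⟩,
  ⟨⟨6, 13⟩, 1, ⟨15, 31⟩, 2, ⟨3, 3⟩⟩,
  ⟨⟨21, 41⟩, 1, ⟨42, 82⟩, 2, ⟨3, 2⟩⟩,
  ⟨⟨24, 46⟩, 1, ⟨57, 108⟩, 2, ⟨3, 3⟩⟩,
  ⟨⟨27, 52⟩, 1, ⟨9, 20⟩, 2, ⟨3, 3⟩⟩,
  ⟨⟨30, 58⟩, 1, ⟨15, 30⟩, 2, ⟨3, 3⟩⟩,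
  ⟨⟨39, 74⟩, 1, ⟨39, 69⟩, -2, ⟨3, 3⟩⟩,
  ⟨⟨48, 91⟩, 1, ⟨48, 87⟩, -2, ⟨3, 3⟩⟩,
  ⟨⟨51, 96⟩, 1, ⟨9, 19⟩, 2, ⟨3, 3⟩⟩,
  ⟨⟨54, 101⟩, 1, ⟨63, 113⟩, -2, ⟨3, 3⟩⟩,
  ⟨⟨3, 3⟩, 0, ⟨21, 36⟩, 0, ⟨0, 1⟩⟩,
  ⟨⟨3, 4⟩, 0, ⟨48, 86⟩, 0, ⟨0, 1⟩⟩,
  ⟨⟨3, 5⟩, 0, ⟨15, 28⟩, 0, ⟨0, 1⟩⟩,
  ⟨⟨6, 10⟩, 0, ⟨54, 100⟩, 0, ⟨0, 1⟩⟩,
  ⟨⟨6, 11⟩, 0, ⟨27, 51⟩, 0, ⟨0, 1⟩⟩,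
  ⟨⟨6, 12⟩, 0, ⟨15, 25⟩, 0, ⟨0, 1⟩⟩,
  ⟨⟨9, 16⟩, 0, ⟨48, 88⟩, 0, ⟨0, 1⟩⟩,
  ⟨⟨9, 17⟩, 0, ⟨33, 63⟩, 0, ⟨0, 1⟩⟩,
  ⟨⟨15, 26⟩, 0, ⟨54, 99⟩, 0, ⟨0, 1⟩⟩,
  ⟨⟨15, 27⟩, 0, ⟨15, 29⟩, 0, ⟨0, 1⟩⟩,
  ⟨⟨21, 37⟩, 0, ⟨33, 62⟩, 0, ⟨0, 1⟩⟩,
  ⟨⟨21, 38⟩, 0, ⟨51, 95⟩, 0, ⟨0, 1⟩⟩,
  ⟨⟨21, 39⟩, 0, ⟨57, 107⟩, 0, ⟨0, 1⟩⟩,
  ⟨⟨21, 40⟩, 0, ⟨42, 77⟩, 0, ⟨0, 1⟩⟩,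
  ⟨⟨24, 43⟩, 0, ⟨24, 44⟩, 0, ⟨0, 1⟩⟩,
  ⟨⟨24, 45⟩, 0, ⟨48, 90⟩, 0, ⟨0, 1⟩⟩,
  ⟨⟨27, 49⟩, 0, ⟨57, 104⟩, 0, ⟨0, 1⟩⟩,
  ⟨⟨27, 50⟩, 0, ⟨39, 72⟩, 0, ⟨0, 1⟩⟩,
  ⟨⟨30, 55⟩, 0, ⟨42, 79⟩, 0, ⟨0, 1⟩⟩,
  ⟨⟨30, 56⟩, 0, ⟨39, 71⟩, 0, ⟨0, 1⟩⟩,
  ⟨⟨30, 57⟩, 0, ⟨39, 73⟩, 0, ⟨0, 1⟩⟩,
  ⟨⟨33, 61⟩, 0, ⟨57, 105⟩, 0, ⟨0, 1⟩⟩,
  ⟨⟨42, 78⟩, 0, ⟨42, 81⟩, 0, ⟨0, 1⟩⟩,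
  ⟨⟨42, 80⟩, 0, ⟨51, 94⟩, 0, ⟨0, 1⟩⟩,
  ⟨⟨48, 89⟩, 0, ⟨57, 106⟩, 0, ⟨0, 1⟩⟩]

theorem chk51 : famB ⟨60, 111⟩ ⟨9, 18⟩ fam51 = true := by decide +kernel

theorem perfect51 (g : ℕ) (h1 : g % 60 = 51) (h2 : 111 ≤ g) : Perfect g :=
  famB_sound chk51 (t := ((g - 111) / 60 : ℕ)) (by positivity) (by simp only [Lin.ev]; omega)

def fam53 : List Seg := [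
  ⟨⟨0, 2⟩, 1, ⟨9, 12⟩, -2, ⟨3, 4⟩⟩,
  ⟨⟨15, 29⟩, 1, ⟨15, 23⟩, -2, ⟨3, 4⟩⟩,
  ⟨⟨18, 36⟩, 1, ⟨36, 72⟩, 2, ⟨3, 3⟩⟩,
  ⟨⟨27, 53⟩, 1, ⟨27, 45⟩, -2, ⟨3, 3⟩⟩,
  ⟨⟨30, 57⟩, 1, ⟨3, 9⟩, 2, ⟨3, 4⟩⟩,
  ⟨⟨33, 64⟩, 1, ⟨42, 84⟩, 2, ⟨3, 3⟩⟩,
  ⟨⟨48, 92⟩, 1, ⟨9, 18⟩, 2, ⟨3, 5⟩⟩,
  ⟨⟨51, 98⟩, 1, ⟨21, 42⟩, 2, ⟨3, 3⟩⟩,
  ⟨⟨54, 104⟩, 1, ⟨36, 73⟩, 2, ⟨3, 2⟩⟩,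
  ⟨⟨57, 108⟩, 1, ⟨42, 81⟩, 2, ⟨3, 5⟩⟩,
  ⟨⟨0, 0⟩, 0, ⟨9, 16⟩, 0, ⟨0, 1⟩⟩,
  ⟨⟨3, 7⟩, 0, ⟨18, 35⟩, 0, ⟨0, 1⟩⟩,
  ⟨⟨9, 14⟩, 0, ⟨27, 48⟩, 0, ⟨0, 1⟩⟩,
  ⟨⟨15, 25⟩, 0, ⟨57, 106⟩, 0, ⟨0, 1⟩⟩,
  ⟨⟨15, 27⟩, 0, ⟨42, 79⟩, 0, ⟨0, 1⟩⟩,
  ⟨⟨15, 28⟩, 0, ⟨48, 90⟩, 0, ⟨0, 1⟩⟩,
  ⟨⟨18, 33⟩, 0, ⟨51, 97⟩, 0, ⟨0, 1⟩⟩,
  ⟨⟨18, 34⟩, 0, ⟨27, 47⟩, 0, ⟨0, 1⟩⟩,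
  ⟨⟨21, 39⟩, 0, ⟨54, 102⟩, 0, ⟨0, 1⟩⟩,
  ⟨⟨21, 40⟩, 0, ⟨36, 69⟩, 0, ⟨0, 1⟩⟩,
  ⟨⟨27, 49⟩, 0, ⟨27, 51⟩, 0, ⟨0, 1⟩⟩,
  ⟨⟨27, 50⟩, 0, ⟨54, 103⟩, 0, ⟨0, 1⟩⟩,
  ⟨⟨27, 52⟩, 0, ⟨36, 71⟩, 0, ⟨0, 1⟩⟩,
  ⟨⟨30, 56⟩, 0, ⟨48, 91⟩, 0, ⟨0, 1⟩⟩,
  ⟨⟨33, 61⟩, 0, ⟨42, 78⟩, 0, ⟨0, 1⟩⟩,
  ⟨⟨33, 62⟩, 0, ⟨42, 80⟩, 0, ⟨0, 1⟩⟩,
  ⟨⟨33, 63⟩, 0, ⟨57, 107⟩, 0, ⟨0, 1⟩⟩,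
  ⟨⟨36, 67⟩, 0, ⟨36, 70⟩, 0, ⟨0, 1⟩⟩,
  ⟨⟨36, 68⟩, 0, ⟨54, 101⟩, 0, ⟨0, 1⟩⟩,
  ⟨⟨42, 77⟩, 0, ⟨42, 82⟩, 0, ⟨0, 1⟩⟩]

theorem chk53 : famB ⟨60, 113⟩ ⟨0, 1⟩ fam53 = true := by decide +kernel

theorem perfect53 (g : ℕ) (h1 : g % 60 = 53) (h2 : 113 ≤ g) : Perfect g :=
  famB_sound chk53 (t := ((g - 113) / 60 : ℕ)) (by positivity) (by simp only [Lin.ev]; omega)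

def fam55 : List Seg := [
  ⟨⟨6, 19⟩, 1, ⟨6, 15⟩, -2, ⟨3, 7⟩⟩,
  ⟨⟨9, 27⟩, 1, ⟨18, 48⟩, -2, ⟨3, 7⟩⟩,
  ⟨⟨18, 55⟩, 1, ⟨57, 165⟩, -2, ⟨3, 6⟩⟩,
  ⟨⟨27, 81⟩, 1, ⟨27, 76⟩, -2, ⟨3, 6⟩⟩,
  ⟨⟨36, 106⟩, 1, ⟨27, 75⟩, -2, ⟨3, 7⟩⟩,
  ⟨⟨39, 116⟩, 1, ⟨57, 164⟩, -2, ⟨3, 6⟩⟩,
  ⟨⟨42, 124⟩, 1, ⟨0, 0⟩, 2, ⟨3, 9⟩⟩,
  ⟨⟨45, 133⟩, 1, ⟨36, 104⟩, -2, ⟨3, 7⟩⟩,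
  ⟨⟨48, 142⟩, 1, ⟨18, 49⟩, -2, ⟨3, 6⟩⟩,
  ⟨⟨57, 168⟩, 1, ⟨36, 99⟩, -2, ⟨3, 6⟩⟩,
  ⟨⟨0, 1⟩, 0, ⟨18, 51⟩, 0, ⟨0, 1⟩⟩,
  ⟨⟨6, 17⟩, 0, ⟨27, 80⟩, 0, ⟨0, 1⟩⟩,
  ⟨⟨6, 18⟩, 0, ⟨36, 101⟩, 0, ⟨0, 1⟩⟩,
  ⟨⟨9, 26⟩, 0, ⟨30, 90⟩, 0, ⟨0, 1⟩⟩,
  ⟨⟨12, 34⟩, 0, ⟨21, 64⟩, 0, ⟨0, 1⟩⟩,
  ⟨⟨12, 35⟩, 0, ⟨51, 150⟩, 0, ⟨0, 1⟩⟩,
  ⟨⟨12, 37⟩, 0, ⟨42, 123⟩, 0, ⟨0, 1⟩⟩,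
  ⟨⟨18, 50⟩, 0, ⟨27, 78⟩, 0, ⟨0, 1⟩⟩,
  ⟨⟨18, 52⟩, 0, ⟨48, 140⟩, 0, ⟨0, 1⟩⟩,
  ⟨⟨18, 53⟩, 0, ⟨39, 115⟩, 0, ⟨0, 1⟩⟩,
  ⟨⟨18, 54⟩, 0, ⟨27, 77⟩, 0, ⟨0, 1⟩⟩,
  ⟨⟨21, 61⟩, 0, ⟨42, 122⟩, 0, ⟨0, 1⟩⟩,
  ⟨⟨21, 62⟩, 0, ⟨51, 152⟩, 0, ⟨0, 1⟩⟩,
  ⟨⟨27, 79⟩, 0, ⟨36, 103⟩, 0, ⟨0, 1⟩⟩,
  ⟨⟨30, 87⟩, 0, ⟨51, 153⟩, 0, ⟨0, 1⟩⟩,
  ⟨⟨30, 88⟩, 0, ⟨39, 113⟩, 0, ⟨0, 1⟩⟩,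
  ⟨⟨39, 114⟩, 0, ⟨48, 141⟩, 0, ⟨0, 1⟩⟩,
  ⟨⟨51, 148⟩, 0, ⟨60, 174⟩, 0, ⟨0, 1⟩⟩,
  ⟨⟨51, 149⟩, 0, ⟨51, 151⟩, 0, ⟨0, 1⟩⟩,
  ⟨⟨57, 166⟩, 0, ⟨57, 167⟩, 0, ⟨0, 1⟩⟩]

theorem chk55 : famB ⟨60, 175⟩ ⟨36, 105⟩ fam55 = true := by decide +kernel

theorem perfect55 (g : ℕ) (h1 : g % 60 = 55) (h2 : 175 ≤ g) : Perfect g :=
  famB_sound chk55 (t := ((g - 175) / 60 : ℕ)) (by positivity) (by simp only [Lin.ev]; omega)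

def fam57 : List Seg := [
  ⟨⟨6, 20⟩, 1, ⟨15, 39⟩, -2, ⟨3, 6⟩⟩,
  ⟨⟨15, 46⟩, 1, ⟨27, 84⟩, 2, ⟨3, 7⟩⟩,
  ⟨⟨18, 55⟩, 1, ⟨33, 100⟩, 2, ⟨3, 6⟩⟩,
  ⟨⟨21, 64⟩, 1, ⟨45, 134⟩, 2, ⟨3, 6⟩⟩,
  ⟨⟨24, 73⟩, 1, ⟨0, 7⟩, 2, ⟨3, 6⟩⟩,
  ⟨⟨39, 116⟩, 1, ⟨27, 83⟩, 2, ⟨3, 7⟩⟩,
  ⟨⟨42, 126⟩, 1, ⟨9, 28⟩, 2, ⟨3, 6⟩⟩,
  ⟨⟨51, 152⟩, 1, ⟨51, 149⟩, -2, ⟨3, 7⟩⟩,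
  ⟨⟨54, 161⟩, 1, ⟨33, 103⟩, 2, ⟨3, 7⟩⟩,
  ⟨⟨57, 170⟩, 1, ⟨6, 16⟩, -2, ⟨3, 6⟩⟩,
  ⟨⟨0, 0⟩, 0, ⟨33, 101⟩, 0, ⟨0, 1⟩⟩,
  ⟨⟨0, 1⟩, 0, ⟨21, 61⟩, 0, ⟨0, 1⟩⟩,
  ⟨⟨0, 2⟩, 0, ⟨27, 80⟩, 0, ⟨0, 1⟩⟩,
  ⟨⟨0, 3⟩, 0, ⟨24, 72⟩, 0, ⟨0, 1⟩⟩,
  ⟨⟨0, 4⟩, 0, ⟨21, 63⟩, 0, ⟨0, 1⟩⟩,
  ⟨⟨0, 5⟩, 0, ⟨9, 27⟩, 0, ⟨0, 1⟩⟩,
  ⟨⟨6, 18⟩, 0, ⟨15, 42⟩, 0, ⟨0, 1⟩⟩,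
  ⟨⟨6, 19⟩, 0, ⟨54, 160⟩, 0, ⟨0, 1⟩⟩,
  ⟨⟨9, 26⟩, 0, ⟨57, 169⟩, 0, ⟨0, 1⟩⟩,
  ⟨⟨15, 40⟩, 0, ⟨15, 45⟩, 0, ⟨0, 1⟩⟩,
  ⟨⟨15, 41⟩, 0, ⟨45, 132⟩, 0, ⟨0, 1⟩⟩,
  ⟨⟨15, 43⟩, 0, ⟨45, 135⟩, 0, ⟨0, 1⟩⟩,
  ⟨⟨15, 44⟩, 0, ⟨39, 112⟩, 0, ⟨0, 1⟩⟩,
  ⟨⟨18, 53⟩, 0, ⟨18, 54⟩, 0, ⟨0, 1⟩⟩,
  ⟨⟨21, 62⟩, 0, ⟨33, 97⟩, 0, ⟨0, 1⟩⟩,
  ⟨⟨24, 70⟩, 0, ⟨54, 159⟩, 0, ⟨0, 1⟩⟩,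
  ⟨⟨24, 71⟩, 0, ⟨51, 148⟩, 0, ⟨0, 1⟩⟩,
  ⟨⟨27, 79⟩, 0, ⟨51, 146⟩, 0, ⟨0, 1⟩⟩,
  ⟨⟨27, 81⟩, 0, ⟨57, 168⟩, 0, ⟨0, 1⟩⟩,
  ⟨⟨27, 82⟩, 0, ⟨45, 133⟩, 0, ⟨0, 1⟩⟩,
  ⟨⟨33, 99⟩, 0, ⟨42, 124⟩, 0, ⟨0, 1⟩⟩,
  ⟨⟨39, 114⟩, 0, ⟨51, 151⟩, 0, ⟨0, 1⟩⟩,
  ⟨⟨42, 123⟩, 0, ⟨42, 125⟩, 0, ⟨0, 1⟩⟩,
  ⟨⟨51, 150⟩, 0, ⟨60, 176⟩, 0, ⟨0, 1⟩⟩]

theorem chk57 : famB ⟨60, 177⟩ ⟨33, 98⟩ fam57 = true := by decide +kernel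

theorem perfect57 (g : ℕ) (h1 : g % 60 = 57) (h2 : 177 ≤ g) : Perfect g :=
  famB_sound chk57 (t := ((g - 177) / 60 : ℕ)) (by positivity) (by simp only [Lin.ev]; omega)

def fam59 : List Seg := [
  ⟨⟨0, 2⟩, 1, ⟨39, 119⟩, 2, ⟨3, 6⟩⟩,
  ⟨⟨9, 29⟩, 1, ⟨9, 23⟩, -2, ⟨3, 6⟩⟩,
  ⟨⟨12, 37⟩, 1, ⟨24, 74⟩, 2, ⟨3, 8⟩⟩,
  ⟨⟨21, 65⟩, 1, ⟨3, 10⟩, 2, ⟨3, 6⟩⟩,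
  ⟨⟨30, 92⟩, 1, ⟨30, 85⟩, -2, ⟨3, 5⟩⟩,
  ⟨⟨33, 100⟩, 1, ⟨54, 165⟩, 2, ⟨3, 6⟩⟩,
  ⟨⟨36, 109⟩, 1, ⟨45, 132⟩, -2, ⟨3, 7⟩⟩,
  ⟨⟨45, 136⟩, 1, ⟨54, 162⟩, 2, ⟨3, 6⟩⟩,
  ⟨⟨48, 145⟩, 1, ⟨15, 49⟩, 2, ⟨3, 6⟩⟩,
  ⟨⟨51, 153⟩, 1, ⟨15, 48⟩, 2, ⟨3, 7⟩⟩,
  ⟨⟨0, 0⟩, 0, ⟨21, 63⟩, 0, ⟨0, 1⟩⟩,
  ⟨⟨0, 1⟩, 0, ⟨33, 99⟩, 0, ⟨0, 1⟩⟩,
  ⟨⟨3, 8⟩, 0, ⟨3, 11⟩, 0, ⟨0, 1⟩⟩,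
  ⟨⟨3, 9⟩, 0, ⟨54, 163⟩, 0, ⟨0, 1⟩⟩,
  ⟨⟨9, 22⟩, 0, ⟨60, 177⟩, 0, ⟨0, 1⟩⟩,
  ⟨⟨9, 24⟩, 0, ⟨24, 73⟩, 0, ⟨0, 1⟩⟩,
  ⟨⟨9, 25⟩, 0, ⟨45, 131⟩, 0, ⟨0, 1⟩⟩,
  ⟨⟨9, 26⟩, 0, ⟨39, 116⟩, 0, ⟨0, 1⟩⟩,
  ⟨⟨9, 27⟩, 0, ⟨21, 61⟩, 0, ⟨0, 1⟩⟩,
  ⟨⟨9, 28⟩, 0, ⟨51, 151⟩, 0, ⟨0, 1⟩⟩,
  ⟨⟨12, 35⟩, 0, ⟨48, 143⟩, 0, ⟨0, 1⟩⟩,
  ⟨⟨12, 36⟩, 0, ⟨45, 133⟩, 0, ⟨0, 1⟩⟩,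
  ⟨⟨15, 45⟩, 0, ⟨54, 160⟩, 0, ⟨0, 1⟩⟩,
  ⟨⟨15, 46⟩, 0, ⟨39, 118⟩, 0, ⟨0, 1⟩⟩,
  ⟨⟨15, 47⟩, 0, ⟨60, 178⟩, 0, ⟨0, 1⟩⟩,
  ⟨⟨21, 62⟩, 0, ⟨33, 98⟩, 0, ⟨0, 1⟩⟩,
  ⟨⟨21, 64⟩, 0, ⟨33, 97⟩, 0, ⟨0, 1⟩⟩,
  ⟨⟨24, 71⟩, 0, ⟨24, 75⟩, 0, ⟨0, 1⟩⟩,
  ⟨⟨24, 72⟩, 0, ⟨39, 117⟩, 0, ⟨0, 1⟩⟩,
  ⟨⟨30, 87⟩, 0, ⟨45, 134⟩, 0, ⟨0, 1⟩⟩,
  ⟨⟨30, 89⟩, 0, ⟨45, 135⟩, 0, ⟨0, 1⟩⟩,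
  ⟨⟨30, 90⟩, 0, ⟨30, 91⟩, 0, ⟨0, 1⟩⟩,
  ⟨⟨36, 106⟩, 0, ⟨36, 108⟩, 0, ⟨0, 1⟩⟩,
  ⟨⟨36, 107⟩, 0, ⟨48, 142⟩, 0, ⟨0, 1⟩⟩,
  ⟨⟨48, 144⟩, 0, ⟨60, 176⟩, 0, ⟨0, 1⟩⟩,
  ⟨⟨51, 152⟩, 0, ⟨60, 174⟩, 0, ⟨0, 1⟩⟩]

theorem chk59 : famB ⟨60, 179⟩ ⟨54, 161⟩ fam59 = true := by decide +kernel

theorem perfect59 (g : ℕ) (h1 : g % 60 = 59) (h2 : 179 ≤ g) : Perfect g :=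
  famB_sound chk59 (t := ((g - 179) / 60 : ℕ)) (by positivity) (by simp only [Lin.ev]; omega)

end Pool.Agent.MP_343cc6_co

end

-- part MP_343cc6_co.Small
section

set_option autoImplicit false

namespace Pool.Agent.MP_343cc6_co

theorem small7 : Perfect 7 := goodB_sound (c := 0) (L := [
  (1, 3), (2, 6), (4, 5)])
  (by decide +kernel)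

theorem small11 : Perfect 11 := goodB_sound (c := 0) (L := [
  (1, 8), (2, 3), (4, 10), (5, 7), (6, 9)])
  (by decide +kernel)

theorem small13 : Perfect 13 := goodB_sound (c := 0) (L := [
  (1, 10), (2, 7), (3, 4), (5, 11), (6, 8), (9, 12)])
  (by decide +kernel)

theorem small15 : Perfect 15 := goodB_sound (c := 0) (L := [
  (1, 13), (2, 11), (3, 7), (4, 12), (5, 6), (8, 10), (9, 14)])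
  (by decide +kernel)

theorem small17 : Perfect 17 := goodB_sound (c := 0) (L := [
  (1, 6), (2, 3), (4, 12), (5, 9), (7, 14), (8, 11), (10, 16), (13, 15)])
  (by decide +kernel)

theorem small19 : Perfect 19 := goodB_sound (c := 0) (L := [
  (1, 16), (2, 4), (3, 13), (5, 10), (6, 7), (8, 14), (9, 17), (11, 18), (12, 15)])
  (by decide +kernel)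

theorem small21 : Perfect 21 := goodB_sound (c := 0) (L := [
  (1, 6), (2, 10), (3, 14), (4, 11), (5, 8), (7, 16), (9, 13), (12, 18), (15, 17), (19, 20)])
  (by decide +kernel)

theorem small23 : Perfect 23 := goodB_sound (c := 0) (L := [
  (1, 10), (2, 18), (3, 4), (5, 16), (6, 12), (7, 17), (8, 11), (9, 13), (14, 22), (15, 20),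
  (19, 21)])
  (by decide +kernel)

theorem small25 : Perfect 25 := goodB_sound (c := 0) (L := [
  (1, 21), (2, 17), (3, 5), (4, 22), (6, 18), (7, 8), (9, 23), (10, 13), (11, 19), (12, 16),
  (14, 20), (15, 24)])
  (by decide +kernel)

theorem small27 : Perfect 27 := goodB_sound (c := 0) (L := [
  (1, 6), (2, 8), (3, 16), (4, 22), (5, 15), (7, 23), (9, 13), (10, 11), (12, 20), (14, 26),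
  (17, 19), (18, 25), (21, 24)])
  (by decide +kernel)

theorem small29 : Perfect 29 := goodB_sound (c := 0) (L := [
  (1, 11), (2, 8), (3, 6), (4, 13), (5, 16), (7, 24), (9, 14), (10, 25), (12, 28), (15, 17),
  (18, 26), (19, 23), (20, 27), (21, 22)])
  (by decide +kernel)

theorem small31 : Perfect 31 := goodB_sound (c := 0) (L := [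
  (1, 29), (2, 9), (3, 21), (4, 24), (5, 13), (6, 10), (7, 26), (8, 17), (11, 27), (12, 14),
  (15, 25), (16, 30), (18, 23), (19, 20), (22, 28)])
  (by decide +kernel)

theorem small33 : Perfect 33 := goodB_sound (c := 0) (L := [
  (1, 2), (3, 29), (4, 19), (5, 15), (6, 20), (7, 28), (8, 21), (9, 13), (10, 32), (11, 16),
  (12, 18), (14, 31), (17, 26), (22, 30), (23, 25), (24, 27)])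
  (by decide +kernel)

theorem small35 : Perfect 35 := goodB_sound (c := 0) (L := [
  (1, 21), (2, 10), (3, 33), (4, 30), (5, 24), (6, 20), (7, 17), (8, 15), (9, 12), (11, 28),
  (13, 19), (14, 26), (16, 27), (18, 31), (22, 23), (25, 29), (32, 34)])
  (by decide +kernel)

theorem small37 : Perfect 37 := goodB_sound (c := 0) (L := [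
  (1, 8), (2, 13), (3, 27), (4, 35), (5, 15), (6, 11), (7, 21), (9, 24), (10, 30), (12, 33),
  (14, 18), (16, 28), (17, 36), (19, 22), (20, 29), (23, 25), (26, 34), (31, 32)])
  (by decide +kernel)

theorem small39 : Perfect 39 := goodB_sound (c := 0) (L := [
  (1, 20), (2, 6), (3, 28), (4, 38), (5, 21), (7, 36), (8, 29), (9, 15), (10, 25), (11, 37),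
  (12, 13), (14, 26), (16, 33), (17, 19), (18, 27), (22, 30), (23, 34), (24, 31), (32, 35)])
  (by decide +kernel)

theorem small41 : Perfect 41 := goodB_sound (c := 0) (L := [
  (1, 3), (2, 11), (4, 7), (5, 29), (6, 37), (8, 21), (9, 38), (10, 32), (12, 26), (13, 14),
  (15, 31), (16, 20), (17, 23), (18, 33), (19, 39), (22, 40), (24, 35), (25, 30), (27, 34), (28, 36)])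
  (by decide +kernel)

theorem small43 : Perfect 43 := goodB_sound (c := 0) (L := [
  (1, 37), (2, 23), (3, 15), (4, 17), (5, 32), (6, 30), (7, 40), (8, 9), (10, 12), (11, 31),
  (13, 18), (14, 25), (16, 34), (19, 27), (20, 29), (21, 38), (22, 26), (24, 39), (28, 42), (33, 36),
  (35, 41)])
  (by decide +kernel)

theorem small45 : Perfect 45 := goodB_sound (c := 0) (L := [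
  (1, 27), (2, 10), (3, 4), (5, 17), (6, 34), (7, 16), (8, 42), (9, 22), (11, 21), (12, 26),
  (13, 28), (14, 32), (15, 39), (18, 43), (19, 41), (20, 23), (24, 40), (25, 31), (29, 33), (30, 35),
  (36, 38), (37, 44)])
  (by decide +kernel)

theorem small47 : Perfect 47 := goodB_sound (c := 0) (L := [
  (1, 30), (2, 24), (3, 6), (4, 41), (5, 22), (7, 18), (8, 10), (9, 35), (11, 25), (12, 17),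
  (13, 33), (14, 21), (15, 34), (16, 39), (19, 20), (23, 38), (26, 32), (27, 43), (28, 40), (29, 37),
  (31, 44), (36, 45), (42, 46)])
  (by decide +kernel)

theorem small49 : Perfect 49 := goodB_sound (c := 0) (L := [
  (1, 3), (2, 28), (4, 48), (5, 18), (6, 20), (7, 27), (8, 19), (9, 12), (10, 37), (11, 30),
  (13, 29), (14, 26), (15, 47), (16, 44), (17, 42), (21, 25), (22, 32), (23, 41), (24, 39), (31, 38),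
  (33, 34), (35, 43), (36, 45), (40, 46)])
  (by decide +kernel)

theorem small51 : Perfect 51 := goodB_sound (c := 0) (L := [
  (1, 23), (2, 48), (3, 34), (4, 6), (5, 37), (7, 40), (8, 49), (9, 17), (10, 11), (12, 26),
  (13, 19), (14, 30), (15, 43), (16, 33), (18, 25), (20, 44), (21, 46), (22, 31), (24, 39), (27, 38),
  (28, 41), (29, 50), (32, 36), (35, 47), (42, 45)])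
  (by decide +kernel)

theorem small53 : Perfect 53 := goodB_sound (c := 0) (L := [
  (1, 14), (2, 19), (3, 46), (4, 31), (5, 20), (6, 10), (7, 26), (8, 9), (11, 39), (12, 32),
  (13, 25), (15, 37), (16, 18), (17, 41), (21, 42), (22, 33), (23, 28), (24, 40), (27, 50), (29, 47),
  (30, 36), (34, 48), (35, 44), (38, 45), (43, 51), (49, 52)])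
  (by decide +kernel)

theorem small55 : Perfect 55 := goodB_sound (c := 0) (L := [
  (1, 21), (2, 47), (3, 9), (4, 34), (5, 8), (6, 27), (7, 12), (10, 25), (11, 20), (13, 32),
  (14, 45), (15, 43), (16, 38), (17, 46), (18, 30), (19, 33), (22, 29), (23, 39), (24, 37), (26, 44),
  (28, 36), (31, 54), (35, 52), (40, 51), (41, 42), (48, 50), (49, 53)])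
  (by decide +kernel)

theorem small57 : Perfect 57 := goodB_sound (c := 0) (L := [
  (1, 11), (2, 51), (3, 22), (4, 36), (5, 31), (6, 43), (7, 47), (8, 26), (9, 14), (10, 25),
  (12, 34), (13, 15), (16, 52), (17, 44), (18, 42), (19, 48), (20, 23), (21, 27), (24, 38), (28, 35),
  (29, 30), (32, 55), (33, 45), (37, 46), (39, 50), (40, 56), (41, 54), (49, 53)])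
  (by decide +kernel)

theorem small59 : Perfect 59 := goodB_sound (c := 0) (L := [
  (1, 6), (2, 52), (3, 50), (4, 7), (5, 32), (8, 36), (9, 22), (10, 26), (11, 17), (12, 35),
  (13, 51), (14, 16), (15, 56), (18, 40), (19, 44), (20, 49), (21, 41), (23, 33), (24, 25), (27, 38),
  (28, 47), (29, 55), (30, 37), (31, 48), (34, 58), (39, 54), (42, 46), (43, 57), (45, 53)])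
  (by decide +kernel)

theorem small61 : Perfect 61 := goodB_sound (c := 0) (L := [
  (1, 52), (2, 38), (3, 18), (4, 16), (5, 28), (6, 33), (7, 49), (8, 26), (9, 14), (10, 32),
  (11, 37), (12, 15), (13, 46), (17, 57), (19, 35), (20, 40), (21, 34), (22, 30), (23, 47), (24, 41),
  (25, 55), (27, 31), (29, 58), (36, 42), (39, 53), (43, 50), (44, 45), (48, 59), (51, 60), (54, 56)])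
  (by decide +kernel)

theorem small63 : Perfect 63 := goodB_sound (c := 0) (L := [
  (1, 59), (2, 36), (3, 38), (4, 12), (5, 28), (6, 62), (7, 11), (8, 61), (9, 57), (10, 55),
  (13, 54), (14, 17), (15, 47), (16, 41), (18, 60), (19, 52), (20, 34), (21, 40), (22, 42), (23, 35),
  (24, 25), (26, 50), (27, 43), (29, 46), (30, 56), (31, 58), (32, 45), (33, 39), (37, 48), (44, 53),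
  (49, 51)])
  (by decide +kernel)

theorem small65 : Perfect 65 := goodB_sound (c := 0) (L := [
  (1, 56), (2, 52), (3, 22), (4, 47), (5, 63), (6, 15), (7, 31), (8, 34), (9, 20), (10, 12),
  (11, 42), (13, 43), (14, 59), (16, 30), (17, 44), (18, 19), (21, 24), (23, 60), (25, 37), (26, 58),
  (27, 45), (28, 53), (29, 50), (32, 48), (33, 62), (35, 39), (36, 41), (38, 61), (40, 57), (46, 54),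
  (49, 55), (51, 64)])
  (by decide +kernel)

theorem small67 : Perfect 67 := goodB_sound (c := 0) (L := [
  (1, 17), (2, 49), (3, 5), (4, 45), (6, 46), (7, 16), (8, 50), (9, 54), (10, 38), (11, 28),
  (12, 44), (13, 21), (14, 33), (15, 27), (18, 56), (19, 26), (20, 41), (22, 35), (23, 37), (24, 60),
  (25, 55), (29, 47), (30, 40), (31, 34), (32, 66), (36, 59), (39, 63), (42, 57), (43, 48), (51, 62),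
  (52, 53), (58, 64), (61, 65)])
  (by decide +kernel)

theorem small69 : Perfect 69 := goodB_sound (c := 0) (L := [
  (1, 47), (2, 10), (3, 34), (4, 62), (5, 19), (6, 36), (7, 42), (8, 30), (9, 38), (11, 20),
  (12, 14), (13, 37), (15, 18), (16, 68), (17, 50), (21, 22), (23, 51), (24, 61), (25, 52), (26, 45),
  (27, 31), (28, 44), (29, 41), (32, 58), (33, 43), (35, 56), (39, 59), (40, 65), (46, 53), (48, 66),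
  (49, 64), (54, 67), (55, 60), (57, 63)])
  (by decide +kernel)

theorem small71 : Perfect 71 := goodB_sound (c := 0) (L := [
  (1, 37), (2, 64), (3, 55), (4, 59), (5, 47), (6, 17), (7, 30), (8, 35), (9, 31), (10, 44),
  (11, 24), (12, 68), (13, 54), (14, 45), (15, 33), (16, 63), (18, 32), (19, 23), (20, 25), (21, 67),
  (22, 34), (26, 43), (27, 60), (28, 56), (29, 61), (36, 57), (38, 58), (39, 65), (40, 46), (41, 51),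
  (42, 49), (48, 50), (52, 53), (62, 70), (66, 69)])
  (by decide +kernel)

theorem small73 : Perfect 73 := goodB_sound (c := 0) (L := [
  (1, 14), (2, 56), (3, 61), (4, 59), (5, 11), (6, 47), (7, 38), (8, 17), (9, 19), (10, 30),
  (12, 55), (13, 58), (15, 22), (16, 50), (18, 43), (20, 49), (21, 54), (23, 25), (24, 48), (26, 31),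
  (27, 53), (28, 42), (29, 52), (32, 70), (33, 44), (34, 71), (35, 39), (36, 57), (37, 45), (40, 67),
  (41, 63), (46, 62), (51, 68), (60, 72), (64, 65), (66, 69)])
  (by decide +kernel)

theorem small75 : Perfect 75 := goodB_sound (c := 0) (L := [
  (1, 28), (2, 8), (3, 71), (4, 36), (5, 31), (6, 7), (9, 17), (10, 68), (11, 70), (12, 41),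
  (13, 52), (14, 18), (15, 24), (16, 38), (19, 47), (20, 53), (21, 26), (22, 45), (23, 63), (25, 66),
  (27, 65), (29, 73), (30, 40), (32, 62), (33, 44), (34, 49), (35, 55), (37, 61), (39, 64), (42, 54),
  (43, 57), (46, 67), (48, 51), (50, 69), (56, 74), (58, 60), (59, 72)])
  (by decide +kernel)

theorem small77 : Perfect 77 := goodB_sound (c := 0) (L := [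
  (1, 34), (2, 42), (3, 70), (4, 13), (5, 29), (6, 44), (7, 62), (8, 11), (9, 16), (10, 68),
  (12, 54), (14, 32), (15, 49), (17, 31), (18, 35), (19, 48), (20, 25), (21, 37), (22, 71), (23, 64),
  (24, 50), (26, 58), (27, 33), (28, 43), (30, 60), (36, 56), (38, 69), (39, 66), (40, 51), (41, 45),
  (46, 67), (47, 72), (52, 65), (53, 76), (55, 63), (57, 59), (61, 73), (74, 75)])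
  (by decide +kernel)

theorem small79 : Perfect 79 := goodB_sound (c := 0) (L := [
  (1, 77), (2, 22), (3, 41), (4, 78), (5, 63), (6, 55), (7, 20), (8, 24), (9, 31), (10, 12),
  (11, 25), (13, 73), (14, 69), (15, 59), (16, 47), (17, 70), (18, 51), (19, 48), (21, 68), (23, 34),
  (26, 66), (27, 50), (28, 38), (29, 56), (30, 64), (32, 49), (33, 75), (35, 53), (36, 44), (37, 65),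
  (39, 45), (40, 76), (42, 54), (43, 52), (46, 71), (57, 72), (58, 62), (60, 61), (67, 74)])
  (by decide +kernel)

theorem small81 : Perfect 81 := goodB_sound (c := 0) (L := [
  (1, 16), (2, 56), (3, 72), (4, 9), (5, 62), (6, 41), (7, 14), (8, 55), (10, 69), (11, 51),
  (12, 79), (13, 52), (15, 58), (17, 75), (18, 34), (19, 27), (20, 21), (22, 28), (23, 54), (24, 77),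
  (25, 44), (26, 29), (30, 67), (31, 40), (32, 80), (33, 43), (35, 65), (36, 38), (37, 73), (39, 60),
  (42, 71), (45, 63), (46, 78), (47, 64), (48, 68), (49, 74), (50, 76), (53, 66), (57, 61), (59, 70)])
  (by decide +kernel)

theorem small83 : Perfect 83 := goodB_sound (c := 0) (L := [
  (1, 76), (2, 45), (3, 27), (4, 5), (6, 58), (7, 28), (8, 14), (9, 46), (10, 61), (11, 75),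
  (12, 38), (13, 47), (15, 50), (16, 21), (17, 78), (18, 60), (19, 32), (20, 65), (22, 66), (23, 25),
  (24, 44), (26, 56), (29, 79), (30, 42), (31, 67), (33, 43), (34, 62), (35, 52), (36, 39), (37, 64),
  (40, 69), (41, 48), (49, 53), (51, 74), (54, 70), (55, 80), (57, 72), (59, 73), (63, 81), (68, 77),
  (71, 82)])
  (by decide +kernel)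

theorem small85 : Perfect 85 := goodB_sound (c := 0) (L := [
  (1, 55), (2, 25), (3, 39), (4, 69), (5, 27), (6, 82), (7, 84), (8, 43), (9, 10), (11, 37),
  (12, 67), (13, 32), (14, 81), (15, 40), (16, 62), (17, 73), (18, 58), (19, 77), (20, 33), (21, 31),
  (22, 50), (23, 74), (24, 68), (26, 42), (28, 80), (29, 76), (30, 35), (34, 66), (36, 78), (38, 44),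
  (41, 45), (46, 83), (47, 54), (48, 65), (49, 70), (51, 75), (52, 63), (53, 56), (57, 71), (59, 61),
  (60, 72), (64, 79)])
  (by decide +kernel)

theorem small87 : Perfect 87 := goodB_sound (c := 0) (L := [
  (1, 8), (2, 46), (3, 41), (4, 56), (5, 30), (6, 77), (7, 18), (9, 76), (10, 22), (11, 62),
  (12, 21), (13, 69), (14, 31), (15, 60), (16, 42), (17, 39), (19, 38), (20, 33), (23, 57), (24, 82),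
  (25, 84), (26, 67), (27, 74), (28, 51), (29, 79), (32, 59), (34, 73), (35, 65), (36, 68), (37, 58),
  (40, 44), (43, 45), (47, 71), (48, 49), (50, 64), (52, 85), (53, 63), (54, 72), (55, 70), (61, 66),
  (75, 81), (78, 86), (80, 83)])
  (by decide +kernel)

theorem small89 : Perfect 89 := goodB_sound (c := 0) (L := [
  (1, 78), (2, 62), (3, 50), (4, 58), (5, 56), (6, 16), (7, 29), (8, 74), (9, 42), (10, 88),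
  (11, 13), (12, 33), (14, 20), (15, 32), (17, 61), (18, 34), (19, 67), (21, 55), (22, 48), (23, 85),
  (24, 76), (25, 44), (26, 46), (27, 30), (28, 87), (31, 59), (35, 81), (36, 51), (37, 77), (38, 45),
  (39, 63), (40, 79), (41, 66), (43, 75), (47, 83), (49, 54), (52, 65), (53, 84), (57, 71), (60, 64),
  (68, 86), (69, 70), (72, 80), (73, 82)])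
  (by decide +kernel)

theorem small91 : Perfect 91 := goodB_sound (c := 0) (L := [
  (1, 48), (2, 90), (3, 44), (4, 79), (5, 30), (6, 55), (7, 89), (8, 65), (9, 33), (10, 50),
  (11, 29), (12, 20), (13, 35), (14, 51), (15, 63), (16, 43), (17, 76), (18, 54), (19, 87), (21, 73),
  (22, 34), (23, 61), (24, 31), (25, 83), (26, 27), (28, 84), (32, 36), (37, 68), (38, 49), (39, 58),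
  (40, 70), (41, 86), (42, 62), (45, 66), (46, 72), (47, 75), (52, 67), (53, 82), (56, 69), (57, 59),
  (60, 74), (64, 81), (71, 77), (78, 88), (80, 85)])
  (by decide +kernel)

theorem small93 : Perfect 93 := goodB_sound (c := 0) (L := [
  (1, 60), (2, 88), (3, 44), (4, 65), (5, 48), (6, 82), (7, 13), (8, 18), (9, 36), (10, 29),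
  (11, 89), (12, 47), (14, 85), (15, 64), (16, 46), (17, 90), (19, 75), (20, 32), (21, 61), (22, 26),
  (23, 31), (24, 42), (25, 87), (27, 51), (28, 74), (30, 55), (33, 71), (34, 67), (35, 63), (37, 40),
  (38, 83), (39, 78), (41, 92), (43, 72), (45, 81), (49, 62), (50, 73), (52, 66), (53, 69), (54, 56),
  (57, 68), (58, 84), (59, 80), (70, 79), (76, 77), (86, 91)])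
  (by decide +kernel)

theorem small95 : Perfect 95 := goodB_sound (c := 0) (L := [
  (1, 92), (2, 30), (3, 48), (4, 80), (5, 45), (6, 18), (7, 64), (8, 94), (9, 57), (10, 87),
  (11, 70), (12, 34), (13, 93), (14, 89), (15, 29), (16, 41), (17, 20), (19, 58), (21, 73), (22, 85),
  (23, 50), (24, 75), (25, 42), (26, 37), (27, 61), (28, 90), (31, 52), (32, 81), (33, 91), (35, 76),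
  (36, 44), (38, 67), (39, 65), (40, 56), (43, 74), (46, 88), (47, 82), (49, 51), (53, 83), (54, 77),
  (55, 68), (59, 69), (60, 84), (62, 63), (66, 71), (72, 78), (79, 86)])
  (by decide +kernel)

theorem small97 : Perfect 97 := goodB_sound (c := 0) (L := [
  (1, 42), (2, 73), (3, 64), (4, 29), (5, 69), (6, 16), (7, 85), (8, 31), (9, 52), (10, 79),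
  (11, 19), (12, 70), (13, 24), (14, 54), (15, 27), (17, 49), (18, 45), (20, 57), (21, 37), (22, 56),
  (23, 53), (25, 30), (26, 47), (28, 80), (32, 67), (33, 71), (34, 81), (35, 83), (36, 50), (38, 93),
  (39, 63), (40, 84), (41, 59), (43, 89), (44, 66), (46, 55), (48, 77), (51, 82), (58, 65), (60, 62),
  (61, 76), (68, 88), (72, 78), (74, 87), (75, 92), (86, 90), (91, 94), (95, 96)])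
  (by decide +kernel)

theorem small99 : Perfect 99 := goodB_sound (c := 0) (L := [
  (1, 62), (2, 84), (3, 54), (4, 61), (5, 12), (6, 74), (7, 70), (8, 45), (9, 10), (11, 31),
  (13, 97), (14, 25), (15, 21), (16, 43), (17, 98), (18, 78), (19, 88), (20, 75), (22, 38), (23, 56),
  (24, 80), (26, 50), (27, 73), (28, 93), (29, 41), (30, 55), (32, 77), (33, 92), (34, 69), (35, 37),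
  (36, 39), (40, 90), (42, 94), (44, 85), (46, 65), (47, 51), (48, 58), (49, 63), (52, 81), (53, 66),
  (57, 83), (59, 87), (60, 82), (64, 96), (67, 76), (68, 89), (71, 79), (72, 95), (86, 91)])
  (by decide +kernel)

theorem small101 : Perfect 101 := goodB_sound (c := 0) (L := [
  (1, 30), (2, 15), (3, 12), (4, 73), (5, 56), (6, 91), (7, 34), (8, 45), (9, 37), (10, 81),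
  (11, 77), (13, 24), (14, 82), (16, 92), (17, 23), (18, 38), (19, 59), (20, 32), (21, 84), (22, 78),
  (25, 68), (26, 93), (27, 80), (28, 52), (29, 43), (31, 83), (33, 41), (35, 100), (36, 58), (39, 86),
  (40, 42), (44, 65), (46, 87), (47, 70), (48, 74), (49, 64), (50, 96), (51, 61), (53, 97), (54, 72),
  (55, 94), (57, 99), (60, 79), (62, 69), (63, 66), (67, 98), (71, 88), (75, 76), (85, 89), (90, 95)])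
  (by decide +kernel)

theorem small103 : Perfect 103 := goodB_sound (c := 0) (L := [
  (1, 85), (2, 12), (3, 66), (4, 45), (5, 58), (6, 78), (7, 14), (8, 52), (9, 46), (10, 61),
  (11, 65), (13, 55), (15, 80), (16, 89), (17, 33), (18, 96), (19, 51), (20, 44), (21, 27), (22, 57),
  (23, 34), (24, 38), (25, 28), (26, 39), (29, 63), (30, 59), (31, 67), (32, 77), (35, 53), (36, 79),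
  (37, 76), (40, 86), (41, 50), (42, 97), (43, 90), (47, 75), (48, 68), (49, 82), (54, 69), (56, 64),
  (60, 83), (62, 84), (70, 87), (71, 73), (72, 98), (74, 101), (81, 102), (88, 100), (91, 95), (92, 93),
  (94, 99)])
  (by decide +kernel)

theorem small105 : Perfect 105 := goodB_sound (c := 0) (L := [
  (1, 65), (2, 47), (3, 62), (4, 60), (5, 30), (6, 90), (7, 88), (8, 81), (9, 98), (10, 45),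
  (11, 82), (12, 78), (13, 41), (14, 99), (15, 42), (16, 31), (17, 50), (18, 27), (19, 93), (20, 32),
  (21, 29), (22, 72), (23, 74), (24, 76), (25, 61), (26, 89), (28, 34), (33, 59), (35, 40), (36, 46),
  (37, 94), (38, 68), (39, 97), (43, 80), (44, 84), (48, 86), (49, 92), (51, 73), (52, 96), (53, 57),
  (54, 55), (56, 63), (58, 71), (64, 75), (66, 95), (67, 70), (69, 87), (77, 91), (79, 102), (83, 100),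
  (85, 104), (101, 103)])
  (by decide +kernel)

theorem small107 : Perfect 107 := goodB_sound (c := 0) (L := [
  (1, 90), (2, 14), (3, 17), (4, 25), (5, 42), (6, 61), (7, 70), (8, 53), (9, 50), (10, 75),
  (11, 68), (12, 31), (13, 103), (15, 73), (16, 89), (18, 46), (19, 59), (20, 81), (21, 32), (22, 91),
  (23, 33), (24, 48), (26, 98), (27, 57), (28, 82), (29, 54), (30, 66), (34, 56), (35, 64), (36, 39),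
  (37, 97), (38, 106), (40, 47), (41, 92), (43, 74), (44, 76), (45, 93), (49, 62), (51, 67), (52, 78),
  (55, 88), (58, 101), (60, 87), (63, 83), (65, 80), (69, 71), (72, 77), (79, 102), (84, 85), (86, 94),
  (95, 104), (96, 100), (99, 105)])
  (by decide +kernel)

theorem small109 : Perfect 109 := goodB_sound (c := 0) (L := [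
  (1, 100), (2, 30), (3, 46), (4, 83), (5, 31), (6, 63), (7, 44), (8, 72), (9, 103), (10, 15),
  (11, 35), (12, 82), (13, 42), (14, 47), (16, 62), (17, 24), (18, 71), (19, 69), (20, 32), (21, 23),
  (22, 53), (25, 107), (26, 39), (27, 52), (28, 75), (29, 37), (33, 77), (34, 94), (36, 90), (38, 105),
  (40, 80), (41, 59), (43, 81), (45, 68), (48, 99), (49, 84), (50, 64), (51, 67), (54, 88), (55, 96),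
  (56, 73), (57, 89), (58, 61), (60, 108), (65, 101), (66, 86), (70, 92), (74, 85), (76, 97), (78, 79),
  (87, 106), (91, 95), (93, 102), (98, 104)])
  (by decide +kernel)

theorem small115 : Perfect 115 := goodB_sound (c := 0) (L := [
  (1, 52), (2, 107), (3, 93), (4, 41), (5, 61), (6, 18), (7, 23), (8, 55), (9, 16), (10, 32),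
  (11, 65), (12, 47), (13, 59), (14, 19), (15, 21), (17, 26), (20, 62), (22, 58), (24, 51), (25, 80),
  (27, 66), (28, 71), (29, 82), (30, 111), (31, 64), (33, 48), (34, 78), (35, 63), (36, 38), (37, 85),
  (39, 79), (40, 114), (42, 100), (43, 73), (44, 94), (45, 108), (46, 91), (49, 87), (50, 69), (53, 76),
  (54, 74), (56, 105), (57, 89), (60, 84), (67, 88), (68, 81), (70, 101), (72, 90), (75, 92), (77, 106),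
  (83, 97), (86, 112), (95, 98), (96, 104), (99, 110), (102, 103), (109, 113)])
  (by decide +kernel)

theorem small117 : Perfect 117 := goodB_sound (c := 0) (L := [
  (1, 13), (2, 26), (3, 95), (4, 59), (5, 71), (6, 40), (7, 35), (8, 102), (9, 29), (10, 83),
  (11, 80), (12, 65), (14, 27), (15, 93), (16, 114), (17, 77), (18, 88), (19, 50), (20, 91), (21, 39),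
  (22, 87), (23, 58), (24, 38), (25, 115), (28, 105), (30, 111), (31, 74), (32, 47), (33, 34), (36, 44),
  (37, 100), (41, 109), (42, 84), (43, 81), (45, 75), (46, 79), (48, 55), (49, 90), (51, 62), (52, 113),
  (53, 69), (54, 112), (56, 78), (57, 61), (60, 89), (63, 108), (64, 96), (66, 116), (67, 76), (68, 94),
  (70, 72), (73, 110), (82, 99), (85, 106), (86, 92), (97, 107), (98, 103), (101, 104)])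
  (by decide +kernel)

theorem small119 : Perfect 119 := goodB_sound (c := 0) (L := [
  (1, 31), (2, 96), (3, 105), (4, 107), (5, 18), (6, 86), (7, 73), (8, 70), (9, 41), (10, 17),
  (11, 44), (12, 54), (13, 76), (14, 22), (15, 37), (16, 53), (19, 103), (20, 90), (21, 65), (23, 106),
  (24, 100), (25, 66), (26, 55), (27, 88), (28, 102), (29, 43), (30, 98), (32, 50), (33, 85), (34, 72),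
  (35, 82), (36, 47), (38, 69), (39, 94), (40, 74), (42, 101), (45, 118), (46, 48), (49, 89), (51, 61),
  (52, 79), (56, 110), (57, 83), (58, 81), (59, 109), (60, 75), (62, 63), (64, 68), (67, 115), (71, 99),
  (77, 80), (78, 87), (84, 108), (91, 112), (92, 97), (93, 113), (95, 114), (104, 116), (111, 117)])
  (by decide +kernel)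

theorem small123 : Perfect 123 := goodB_sound (c := 0) (L := [
  (1, 76), (2, 24), (3, 118), (4, 6), (5, 69), (7, 58), (8, 29), (9, 45), (10, 25), (11, 55),
  (12, 47), (13, 89), (14, 94), (15, 83), (16, 97), (17, 113), (18, 30), (19, 82), (20, 87), (21, 105),
  (22, 121), (23, 48), (26, 59), (27, 73), (28, 65), (31, 38), (32, 51), (33, 98), (34, 75), (35, 84),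
  (36, 54), (37, 57), (39, 108), (40, 78), (41, 70), (42, 115), (43, 60), (44, 110), (46, 117), (49, 63),
  (50, 111), (52, 122), (53, 64), (56, 66), (61, 67), (62, 102), (68, 100), (71, 116), (72, 106), (74, 79),
  (77, 107), (80, 103), (81, 85), (86, 112), (88, 119), (90, 91), (92, 120), (93, 109), (95, 104), (96, 99),
  (101, 114)])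
  (by decide +kernel)

theorem small125 : Perfect 125 := goodB_sound (c := 0) (L := [
  (1, 70), (2, 13), (3, 64), (4, 22), (5, 115), (6, 107), (7, 103), (8, 119), (9, 30), (10, 72),
  (11, 36), (12, 40), (14, 80), (15, 48), (16, 89), (17, 85), (18, 66), (19, 55), (20, 60), (21, 51),
  (23, 98), (24, 123), (25, 44), (26, 69), (27, 43), (28, 75), (29, 33), (31, 73), (32, 97), (34, 114),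
  (35, 76), (37, 104), (38, 50), (39, 42), (41, 46), (45, 117), (47, 54), (49, 100), (52, 122), (53, 99),
  (56, 87), (57, 106), (58, 102), (59, 96), (61, 67), (62, 116), (63, 95), (65, 92), (68, 91), (71, 79),
  (74, 112), (77, 94), (78, 113), (81, 101), (82, 121), (83, 93), (84, 86), (88, 110), (90, 124), (105, 118),
  (108, 109), (111, 120)])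
  (by decide +kernel)

theorem small129 : Perfect 129 := goodB_sound (c := 0) (L := [
  (1, 75), (2, 39), (3, 98), (4, 101), (5, 12), (6, 86), (7, 11), (8, 31), (9, 88), (10, 123),
  (13, 58), (14, 104), (15, 18), (16, 49), (17, 124), (19, 24), (20, 48), (21, 90), (22, 95), (23, 122),
  (25, 83), (26, 68), (27, 125), (28, 41), (29, 91), (30, 82), (32, 47), (33, 50), (34, 53), (35, 79),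
  (36, 63), (37, 61), (38, 52), (40, 76), (42, 67), (43, 84), (44, 105), (45, 85), (46, 112), (51, 89),
  (54, 97), (55, 64), (56, 110), (57, 127), (59, 106), (60, 111), (62, 126), (65, 77), (66, 119), (69, 117),
  (70, 80), (71, 128), (72, 118), (73, 81), (74, 109), (78, 99), (87, 116), (92, 103), (93, 113), (94, 120),
  (96, 114), (100, 102), (107, 108), (115, 121)])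
  (by decide +kernel)

theorem small141 : Perfect 141 := goodB_sound (c := 0) (L := [
  (1, 118), (2, 50), (3, 75), (4, 129), (5, 85), (6, 8), (7, 66), (9, 16), (10, 94), (11, 116),
  (12, 123), (13, 99), (14, 43), (15, 57), (17, 49), (18, 95), (19, 64), (20, 83), (21, 56), (22, 73),
  (23, 93), (24, 65), (25, 71), (26, 133), (27, 35), (28, 31), (29, 78), (30, 117), (32, 108), (33, 121),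
  (34, 102), (36, 51), (37, 48), (38, 55), (39, 106), (40, 134), (41, 45), (42, 82), (44, 54), (46, 127),
  (47, 74), (52, 131), (53, 138), (58, 124), (59, 92), (60, 110), (61, 104), (62, 63), (67, 111), (68, 88),
  (69, 81), (70, 107), (72, 100), (76, 114), (77, 90), (79, 137), (80, 132), (84, 103), (86, 125), (87, 109),
  (89, 120), (91, 97), (96, 101), (98, 119), (105, 128), (112, 130), (113, 139), (115, 140), (122, 136), (126, 135)])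
  (by decide +kernel)

theorem small157 : Perfect 157 := goodB_sound (c := 0) (L := [
  (1, 63), (2, 56), (3, 77), (4, 48), (5, 144), (6, 102), (7, 38), (8, 66), (9, 42), (10, 121),
  (11, 148), (12, 71), (13, 97), (14, 65), (15, 123), (16, 19), (17, 24), (18, 134), (20, 147), (21, 32),
  (22, 154), (23, 55), (25, 82), (26, 149), (27, 109), (28, 100), (29, 31), (30, 107), (33, 145), (34, 51),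
  (35, 137), (36, 151), (37, 106), (39, 115), (40, 54), (41, 112), (43, 78), (44, 111), (45, 139), (46, 114),
  (47, 86), (49, 119), (50, 116), (52, 67), (53, 103), (57, 150), (58, 59), (60, 69), (61, 73), (62, 141),
  (64, 124), (68, 95), (70, 91), (72, 108), (74, 122), (75, 99), (76, 129), (79, 83), (80, 132), (81, 110),
  (84, 89), (85, 101), (87, 143), (88, 128), (90, 155), (92, 135), (93, 140), (94, 131), (96, 118), (98, 126),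
  (104, 142), (105, 113), (117, 136), (120, 130), (125, 138), (127, 153), (133, 156), (146, 152)])
  (by decide +kernel)

end Pool.Agent.MP_343cc6_co

end

-- part MP_343cc6_co.All
section

set_option autoImplicit false

namespace Pool.Agent.MP_343cc6_co

theorem perfect_all (g : ℕ) (hodd : g % 2 = 1) (h7 : 7 ≤ g) (h9 : g ≠ 9) : Perfect g := by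
  have hr : g % 60 = 1 ∨ g % 60 = 3 ∨ g % 60 = 5 ∨ g % 60 = 7 ∨ g % 60 = 9 ∨ g % 60 = 11 ∨ g % 60 = 13 ∨ g % 60 = 15 ∨ g % 60 = 17 ∨ g % 60 = 19 ∨ g % 60 = 21 ∨ g % 60 = 23 ∨ g % 60 = 25 ∨ g % 60 = 27 ∨ g % 60 = 29 ∨ g % 60 = 31 ∨ g % 60 = 33 ∨ g % 60 = 35 ∨ g % 60 = 37 ∨ g % 60 = 39 ∨ g % 60 = 41 ∨ g % 60 = 43 ∨ g % 60 = 45 ∨ g % 60 = 47 ∨ g % 60 = 49 ∨ g % 60 = 51 ∨ g % 60 = 53 ∨ g % 60 = 55 ∨ g % 60 = 57 ∨ g % 60 = 59 := by omega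
  rcases hr with h | h | h | h | h | h | h | h | h | h | h | h | h | h | h | h | h | h | h | h | h | h | h | h | h | h | h | h | h | h
  · by_cases hb : 121 ≤ g
    · exact perfect1 g h hb
    · obtain rfl : g = 61 := by omega
      exact small61
  · by_cases hb : 183 ≤ g
    · exact perfect3 g h hb
    · have hs : g = 63 ∨ g = 123 := by omega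
      rcases hs with rfl | rfl
      · exact small63
      · exact small123
  · by_cases hb : 185 ≤ g
    · exact perfect5 g h hb
    · have hs : g = 65 ∨ g = 125 := by omega
      rcases hs with rfl | rfl
      · exact small65
      · exact small125
  · by_cases hb : 127 ≤ g
    · exact perfect7 g h hb
    · have hs : g = 7 ∨ g = 67 := by omega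
      rcases hs with rfl | rfl
      · exact small7
      · exact small67
  · by_cases hb : 189 ≤ g
    · exact perfect9 g h hb
    · have hs : g = 69 ∨ g = 129 := by omega
      rcases hs with rfl | rfl
      · exact small69
      · exact small129
  · by_cases hb : 131 ≤ g
    · exact perfect11 g h hb
    · have hs : g = 11 ∨ g = 71 := by omega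
      rcases hs with rfl | rfl
      · exact small11
      · exact small71
  · by_cases hb : 133 ≤ g
    · exact perfect13 g h hb
    · have hs : g = 13 ∨ g = 73 := by omega
      rcases hs with rfl | rfl
      · exact small13
      · exact small73
  · by_cases hb : 135 ≤ g
    · exact perfect15 g h hb
    · have hs : g = 15 ∨ g = 75 := by omega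
      rcases hs with rfl | rfl
      · exact small15
      · exact small75
  · by_cases hb : 137 ≤ g
    · exact perfect17 g h hb
    · have hs : g = 17 ∨ g = 77 := by omega
      rcases hs with rfl | rfl
      · exact small17
      · exact small77
  · by_cases hb : 139 ≤ g
    · exact perfect19 g h hb
    · have hs : g = 19 ∨ g = 79 := by omega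
      rcases hs with rfl | rfl
      · exact small19
      · exact small79
  · by_cases hb : 201 ≤ g
    · exact perfect21 g h hb
    · have hs : g = 21 ∨ g = 81 ∨ g = 141 := by omega
      rcases hs with rfl | rfl | rfl
      · exact small21
      · exact small81
      · exact small141
  · by_cases hb : 143 ≤ g
    · exact perfect23 g h hb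
    · have hs : g = 23 ∨ g = 83 := by omega
      rcases hs with rfl | rfl
      · exact small23
      · exact small83
  · by_cases hb : 145 ≤ g
    · exact perfect25 g h hb
    · have hs : g = 25 ∨ g = 85 := by omega
      rcases hs with rfl | rfl
      · exact small25
      · exact small85
  · by_cases hb : 147 ≤ g
    · exact perfect27 g h hb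
    · have hs : g = 27 ∨ g = 87 := by omega
      rcases hs with rfl | rfl
      · exact small27
      · exact small87
  · by_cases hb : 149 ≤ g
    · exact perfect29 g h hb
    · have hs : g = 29 ∨ g = 89 := by omega
      rcases hs with rfl | rfl
      · exact small29
      · exact small89
  · by_cases hb : 151 ≤ g
    · exact perfect31 g h hb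
    · have hs : g = 31 ∨ g = 91 := by omega
      rcases hs with rfl | rfl
      · exact small31
      · exact small91
  · by_cases hb : 153 ≤ g
    · exact perfect33 g h hb
    · have hs : g = 33 ∨ g = 93 := by omega
      rcases hs with rfl | rfl
      · exact small33
      · exact small93
  · by_cases hb : 155 ≤ g
    · exact perfect35 g h hb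
    · have hs : g = 35 ∨ g = 95 := by omega
      rcases hs with rfl | rfl
      · exact small35
      · exact small95
  · by_cases hb : 217 ≤ g
    · exact perfect37 g h hb
    · have hs : g = 37 ∨ g = 97 ∨ g = 157 := by omega
      rcases hs with rfl | rfl | rfl
      · exact small37
      · exact small97
      · exact small157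
  · by_cases hb : 159 ≤ g
    · exact perfect39 g h hb
    · have hs : g = 39 ∨ g = 99 := by omega
      rcases hs with rfl | rfl
      · exact small39
      · exact small99
  · by_cases hb : 161 ≤ g
    · exact perfect41 g h hb
    · have hs : g = 41 ∨ g = 101 := by omega
      rcases hs with rfl | rfl
      · exact small41
      · exact small101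
  · by_cases hb : 163 ≤ g
    · exact perfect43 g h hb
    · have hs : g = 43 ∨ g = 103 := by omega
      rcases hs with rfl | rfl
      · exact small43
      · exact small103
  · by_cases hb : 165 ≤ g
    · exact perfect45 g h hb
    · have hs : g = 45 ∨ g = 105 := by omega
      rcases hs with rfl | rfl
      · exact small45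
      · exact small105
  · by_cases hb : 167 ≤ g
    · exact perfect47 g h hb
    · have hs : g = 47 ∨ g = 107 := by omega
      rcases hs with rfl | rfl
      · exact small47
      · exact small107
  · by_cases hb : 169 ≤ g
    · exact perfect49 g h hb
    · have hs : g = 49 ∨ g = 109 := by omega
      rcases hs with rfl | rfl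
      · exact small49
      · exact small109
  · by_cases hb : 111 ≤ g
    · exact perfect51 g h hb
    · obtain rfl : g = 51 := by omega
      exact small51
  · by_cases hb : 113 ≤ g
    · exact perfect53 g h hb
    · obtain rfl : g = 53 := by omega
      exact small53
  · by_cases hb : 175 ≤ g
    · exact perfect55 g h hb
    · have hs : g = 55 ∨ g = 115 := by omega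
      rcases hs with rfl | rfl
      · exact small55
      · exact small115
  · by_cases hb : 177 ≤ g
    · exact perfect57 g h hb
    · have hs : g = 57 ∨ g = 117 := by omega
      rcases hs with rfl | rfl
      · exact small57
      · exact small117
  · by_cases hb : 179 ≤ g
    · exact perfect59 g h hb
    · have hs : g = 59 ∨ g = 119 := by omega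
      rcases hs with rfl | rfl
      · exact small59
      · exact small119

end Pool.Agent.MP_343cc6_co

end

-- part MP_343cc6_co.Neg
section

set_option autoImplicit false

namespace Pool.Agent.MP_343cc6_co

/-- compatibility of two assignments `a ↦ b`, `x ↦ y` of the partner map -/
def compat {g : ℕ} [NeZero g] (p q : ZMod g × ZMod g) : Bool :=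
  decide (p.2 = q.1 ↔ q.2 = p.1) && decide (p.1 - p.2 ≠ q.1 - q.2) &&
    decide (p.1 + p.2 = q.1 + q.2 → p.2 = q.1)

def single {g : ℕ} [NeZero g] (p : ZMod g × ZMod g) : Bool :=
  decide (p.2 ≠ 0) && decide (p.2 ≠ p.1) && decide (p.1 + p.2 ≠ 0)

def ext {g : ℕ} [NeZero g] (all : List (ZMod g)) :
    List (ZMod g) → List (ZMod g × ZMod g) → Bool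
  | [], _ => true
  | a :: todo, done =>
    all.any (fun b => single (a, b) && done.all (compat (a, b)) && ext all todo ((a, b) :: done))

theorem ext_true {g : ℕ} [NeZero g] (all : List (ZMod g)) (hall : ∀ v, v ∈ all)
    (F : ZMod g → ZMod g) (h1 : ∀ a, a ≠ 0 → single (a, F a) = true)
    (h2 : ∀ a x, a ≠ 0 → x ≠ 0 → a ≠ x → compat (a, F a) (x, F x) = true) :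
    ∀ (todo : List (ZMod g)) (done : List (ZMod g × ZMod g)), todo.Nodup → (∀ a ∈ todo, a ≠ 0) →
      (∀ p ∈ done, p.1 ≠ 0 ∧ p.2 = F p.1 ∧ p.1 ∉ todo) → ext all todo done = true
  | [], _, _, _, _ => rfl
  | a :: todo, done, hn, h0, hd => by
    rw [List.nodup_cons] at hn
    have ha : a ≠ 0 := h0 a (by simp)
    simp only [ext, List.any_eq_true, Bool.and_eq_true, List.all_eq_true]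
    refine ⟨F a, hall _, ⟨h1 a ha, ?_⟩, ?_⟩
    · rintro ⟨x, y⟩ hp
      obtain ⟨p1, p2, p3⟩ := hd _ hp
      simp only at p1 p2 p3
      subst p2
      exact h2 a x ha p1 (fun e => p3 (by simp [e]))
    · apply ext_true all hall F h1 h2 todo _ hn.2 (fun b hb => h0 b (by simp [hb]))
      intro p hp
      rcases List.mem_cons.mp hp with rfl | hp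
      · exact ⟨ha, rfl, hn.1⟩
      · obtain ⟨p1, p2, p3⟩ := hd _ hp
        exact ⟨p1, p2, fun e => p3 (by simp [e])⟩

theorem exists_map {g : ℕ} [NeZero g] (two : ∀ u : ZMod g, u + u = 0 → u = 0) (h : Perfect g) :
    ∃ F : ZMod g → ZMod g, (∀ a, a ≠ 0 → single (a, F a) = true) ∧
      (∀ a x, a ≠ 0 → x ≠ 0 → a ≠ x → compat (a, F a) (x, F x) = true) := by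
  obtain ⟨M, c, h1, h2, h3, h4, h5⟩ := h
  have ex : ∀ a : ZMod g, ∃ b : ZMod g, a ≠ 0 → M.Adj (a + c) (b + c) := by
    intro a
    by_cases ha : a = 0
    · exact ⟨0, fun h => absurd ha h⟩
    · obtain ⟨w, hw, -⟩ := h2 (a + c) (fun e => ha (by linear_combination e))
      exact ⟨w - c, fun _ => by simpa using hw⟩
  choose F hF using ex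
  have uniq : ∀ a b b' : ZMod g, a ≠ 0 → M.Adj (a + c) (b + c) → M.Adj (a + c) (b' + c) →
      b = b' := by
    intro a b b' ha hb hb'
    have := (h2 (a + c) (fun e => ha (by linear_combination e))).unique hb hb'
    linear_combination this
  refine ⟨F, ?_, ?_⟩
  · intro a ha
    have hA := hF a ha
    simp only [single, Bool.and_eq_true, decide_eq_true_eq]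
    refine ⟨⟨?_, ?_⟩, ?_⟩
    · intro e
      rw [e, zero_add] at hA
      exact h1 _ hA.symm
    · intro e
      rw [e] at hA
      exact hA.ne rfl
    · intro e
      apply h5 _ _ hA
      have e1 : F a + c - c = c - (a + c) := by linear_combination e
      have e2 : c - (F a + c) = a + c - c := by linear_combination -e
      rw [e1, e2, min_comm]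
  · intro a x ha hx hax
    have hA := hF a ha
    have hX := hF x hx
    simp only [compat, Bool.and_eq_true, decide_eq_true_eq]
    refine ⟨⟨⟨?_, ?_⟩, ?_⟩, ?_⟩
    · intro e
      rw [e] at hA
      exact uniq x _ _ hx hX hA.symm
    · intro e
      rw [e] at hX
      exact uniq a _ _ ha hA hX.symm
    · intro e
      have e1 : a + c - (F a + c) = x + c - (F x + c) := by linear_combination e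
      have e2 : F a + c - (a + c) = F x + c - (x + c) := by linear_combination -e
      rcases h3 _ _ _ _ hA hX (by rw [e1, e2]) with ⟨k, -⟩ | ⟨k1, k2⟩
      · exact hax (by linear_combination k)
      · have := two (a - x) (by linear_combination e + k1 + k1 - (k1 - k2))
        exact hax (by linear_combination this)
    · intro e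
      have e1 : a + c - (x + c) = F x + c - (F a + c) := by linear_combination e
      have e2 : x + c - (a + c) = F a + c - (F x + c) := by linear_combination -e
      rcases h4 _ _ _ _ hA hX (by rw [e1, e2, min_comm]) with ⟨k, -⟩ | ⟨-, k2⟩
      · exact absurd (by linear_combination k) hax
      · linear_combination k2

theorem not_perfect3 : ¬ Perfect 3 := by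
  intro h
  obtain ⟨F, h1, h2⟩ := exists_map (by decide) h
  have := ext_true [0, 1, 2] (by decide) F h1 h2 [1, 2] [] (by decide) (by decide) (by simp)
  revert this
  decide +kernel

theorem not_perfect5 : ¬ Perfect 5 := by
  intro h
  obtain ⟨F, h1, h2⟩ := exists_map (by decide) h
  have := ext_true [0, 1, 2, 3, 4] (by decide) F h1 h2 [1, 2, 3, 4] [] (by decide) (by decide)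
    (by simp)
  revert this
  decide +kernel

theorem not_perfect9 : ¬ Perfect 9 := by
  intro h
  obtain ⟨F, h1, h2⟩ := exists_map (by decide) h
  have := ext_true [0, 1, 2, 3, 4, 5, 6, 7, 8] (by decide) F h1 h2 [1, 2, 3, 4, 5, 6, 7, 8] []
    (by decide) (by decide) (by simp)
  revert this
  decide +kernel

end Pool.Agent.MP_343cc6_co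

end
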